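import Pool.Agent.R432.V5
import Pool.Agent.Y696.XL.Up

/-!
# The Birch and Swinnerton-Dyer rank conjecture for `y² + D y = x³` over the fields
`ℚ(ω, ∛l₁, …, ∛lₙ)`, for at least 63.9 percent of the `D`

`K` is the field of the third roots of unity, `E_D : y² + D y = x³`, and `D` runs through the
squarefree `D = 1` modulo `3` of `𝓞 K` whose norm is not `1` modulo `9`.  A finite set `S` of primes
`l = 1` modulo `3`, of norm `1` modulo `9` and not dividing `D`, is called admissible if modulo each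
`l ∈ S` all the elements of `S` and all the prime factors of `D` but exactly one are cubes.  We prove
that at least 63.9 percent of the `D` have the following property, as well as all `D` for which
`E_D(K)` is finite and `Ш(E_D / K)[3^∞] = 0`: every admissible set can be enlarged by infinitely many
primes, and for every admissible `S` and `F = K(∛l : l ∈ S)`, an abelian extension of `K` of degree
`3 ^ #S`, the `L`-function of `E_D` over `F` is entire and not zero at `s = 1`, and `E_D(F)` is finite.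

The proof.  (1) For admissible `S` and integers `e_l` the Laplacian of the cubic residue symbols of the
prime factors of `D' = D ∏ l^{e_l}` has the constants as its kernel if that of `D` has this property,
as the `l` with `3 ∤ e_l` are leaves of the weighted graph of `D'`.  So by the library (the central
value of the Hecke `L`-function as a sum of values of an elliptic function, and its exact `3`-adic
valuation) the central value for `D'` is not zero, and `E_{D'}(K)` is finite by descent.  (2) A prime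
`α` of `K` not dividing `3 D ∏ l` has in `F` either `3 ^ #S` places of residue degree `1`, if all `l`
are cubes modulo `α`, or `3 ^ (#S - 1)` places of residue degree `3`; the numbers of points of the
reductions are given by Jacobi sums and the theorem of Hasse and Davenport; and the product over the
characters `e` of `∏ (1 - x ω^(∑ e_l c_l))` is `(1 - x^f)^(3^n / f)`.  So the `L`-function over `F` is the
product over the `e` of the `L`-functions of the `E_{D'}` over `K`.  (3) Over `F` the `E_{D'}` are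
isomorphic, and the sums over the twists of the conjugates of a point prove that `E_D(F)` is finite.
(4) Admissible primes exist by the density theorem for `ℚ(ω, ∛π : π ∈ P)`.  (5) The proportion of the
`D` for which `E_D(K)` is finite and `Ш(E_D / K)[3^∞] = 0` is from the library.
-/

set_option autoImplicit false

namespace Pool.Agent.Results.MP_1a91b9_nt.CubicTowersValues

open NumberField IsDedekindDomain
open Pool.Agent.TH841.NF.D (Sha)
open scoped Classical

/-- The curve `E_D : y² + D y = x³`. -/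
def curve {F : Type} [Field F] (D : F) : WeierstrassCurve F := ⟨0, 0, D, 0, 0⟩

section field

variable {F : Type} [Field F] [NumberField F]

/-- The number of elements of the residue field at `v`. -/
noncomputable def q (v : HeightOneSpectrum (𝓞 F)) : ℕ := Nat.card (𝓞 F ⧸ v.asIdeal)

/-- The number of points (with the point at infinity) of the curve `y² + D y = x³` over the residue
field at `v`. -/
noncomputable def N (D : 𝓞 F) (v : HeightOneSpectrum (𝓞 F)) : ℕ :=
  Nat.card {P : (𝓞 F ⧸ v.asIdeal) × (𝓞 F ⧸ v.asIdeal) //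
    P.2 ^ 2 + Ideal.Quotient.mk v.asIdeal D * P.2 = P.1 ^ 3} + 1

/-- The Euler factor `(1 - a_v q_v^{-s} + q_v^{1 - 2 s})⁻¹`, `a_v = q_v + 1 - N_v`. -/
noncomputable def factor (D : 𝓞 F) (s : ℂ) (v : HeightOneSpectrum (𝓞 F)) : ℂ :=
  (1 - ((q v : ℂ) + 1 - N D v) * (q v : ℂ) ^ (-s) + (q v : ℂ) ^ (1 - 2 * s))⁻¹

/-- For the curve `E_D : y² + D y = x³` over `F`: the Euler product over the places `v` of `F` that do
not divide `B` converges for `Re s > 3/2`, it extends to an entire function, the value of this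
function at `s = 1` is not zero, and `E_D(F)` is finite. -/
def RankZero (B D : 𝓞 F) : Prop :=
  (∃ L : ℂ → ℂ, Differentiable ℂ L ∧
    (∀ s : ℂ, 3 / 2 < s.re →
      HasProd (fun v : {v : HeightOneSpectrum (𝓞 F) // B ∉ v.asIdeal} => factor D s v.1) (L s)) ∧
    L 1 ≠ 0) ∧
  Finite (curve (D : F)).toAffine.Point

end field

variable {K : Type} [Field K] [NumberField K]

/-- `D` is squarefree and `1` modulo `3`, and its norm is not `1` modulo `9`. -/
def InClass (D : 𝓞 K) : Prop :=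
  (3 : 𝓞 K) ∣ D - 1 ∧ Squarefree D ∧ ¬ (9 : ℤ) ∣ Algebra.norm ℤ D - 1

/-- `x` is a cube modulo `l`. -/
def IsCubeMod (x l : 𝓞 K) : Prop := ∃ y : 𝓞 K, l ∣ x - y ^ 3

/-- `l` is a prime element, `1` modulo `3`, of norm `1` modulo `9`, it does not divide `D`, and
exactly one of the prime elements `p = 1` modulo `3` that divide `D` is not a cube modulo `l`. -/
def Attached (D l : 𝓞 K) : Prop :=
  Prime l ∧ (3 : 𝓞 K) ∣ l - 1 ∧ (9 : ℤ) ∣ Algebra.norm ℤ l - 1 ∧ ¬ l ∣ D ∧
    ∃! p : 𝓞 K, Prime p ∧ (3 : 𝓞 K) ∣ p - 1 ∧ p ∣ D ∧ ¬ IsCubeMod p l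

/-- Each `l ∈ S` is attached to `D`, and the other elements of `S` are cubes modulo `l`. -/
def Admissible (D : 𝓞 K) (S : Finset (𝓞 K)) : Prop :=
  (∀ l ∈ S, Attached D l) ∧ ∀ l ∈ S, ∀ m ∈ S, m ≠ l → IsCubeMod m l

/-- `F = K(∛l : l ∈ S)`. -/
def Generated (S : Finset (𝓞 K)) (F : Type) [Field F] [Algebra K F] : Prop :=
  ∃ r : 𝓞 K → F, (∀ l ∈ S, r l ^ 3 = algebraMap K F (l : K)) ∧
    ∀ L : Subfield F, (∀ k : K, algebraMap K F k ∈ L) → (∀ l ∈ S, r l ∈ L) → L = ⊤

/-- For every admissible set `S`: there are infinitely many primes `l` outside `S` such that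
`S ∪ {l}` is admissible, there is a number field `F = K(∛l : l ∈ S)`, and for each such `F` the degree
`[F : K]` is `3 ^ #S`, the `L`-function of `E_D` over `F` (without the Euler factors at the places
above `3 D ∏ l`) is entire and not zero at `s = 1`, and the group `E_D(F)` is finite. -/
def Towers (D : 𝓞 K) : Prop :=
  ∀ S : Finset (𝓞 K), Admissible D S →
    {l : 𝓞 K | l ∉ S ∧ Admissible D (insert l S)}.Infinite ∧
    (∃ (F : Type) (_ : Field F) (_ : NumberField F) (_ : Algebra K F), Generated S F) ∧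
    ∀ (F : Type) [Field F] [NumberField F] [Algebra K F], Generated S F →
      Module.finrank K F = 3 ^ S.card ∧
      RankZero (algebraMap (𝓞 K) (𝓞 F) (3 * D * ∏ l ∈ S, l)) (algebraMap (𝓞 K) (𝓞 F) D)

/-- `E_D(K)` is finite and `Ш(E_D / K)` has no elements of order `3`. -/
def NoThree (D : 𝓞 K) : Prop :=
  Finite (curve (D : K)).toAffine.Point ∧
    ∀ (n : ℕ) (x : Sha (curve (D : K))), 3 ^ n • x = 0 → x = 0

section proof

open Pool.Agent.Y692.QS (Ei w nr)
open Pool.Agent.Y715.T.Rec (cs)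
open Pool.Agent.Y715.T.RecG (Pq)
open Pool.Agent.Y703.CT (Dt pD Ker ClsE)
open Pool.Agent.Y696.CTK (ClsK Tri)
open Pool.Agent.R432.C

theorem pq_three {q : Ei} (h : Pq q) : ¬ q ∣ 3 := h.norm

theorem isCubeMod_iff (j : Ei ≃+* 𝓞 K) {x l : Ei} (hl : Pq l) (hx : ¬ l ∣ x) :
    IsCubeMod (j x) (j l) ↔ cs l x = 0 := by
  rw [Pool.Agent.Y715.T.RecG.cs_zero_iff hl.prime (pq_three hl) hx]
  constructor
  · rintro ⟨y, hy⟩
    refine ⟨j.symm y, ?_⟩
    rw [← map_dvd_iff j, map_sub, map_pow, RingEquiv.apply_symm_apply]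
    exact hy
  · rintro ⟨y, hy⟩
    refine ⟨j y, ?_⟩
    rw [← map_pow, ← map_sub, map_dvd_iff j]
    exact hy

theorem three_iff (j : Ei ≃+* 𝓞 K) (x : Ei) : (3 : 𝓞 K) ∣ j x - 1 ↔ (3 : Ei) ∣ x - 1 := by
  have : j x - 1 = j (x - 1) := by rw [map_sub, map_one]
  rw [this, ← map_ofNat j 3, map_dvd_iff j]

theorem pq_iff (j : Ei ≃+* 𝓞 K) (x : Ei) : (Prime (j x) ∧ (3 : 𝓞 K) ∣ j x - 1) ↔ Pq x := by
  rw [three_iff, MulEquiv.prime_iff j]
  exact ⟨fun h => ⟨h.1, h.2⟩, fun h => ⟨h.prime, h.three⟩⟩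

variable {n : ℕ} {π : Fin (n + 1) → Ei}

theorem pq_factor (hdt : Dt π (fun _ => 1)) {p : Ei} (hp : Pq p) :
    p ∣ pD π (fun _ => 1) ↔ ∃ i, p = π i := by
  constructor
  · intro h
    obtain ⟨i, -, hi⟩ := (hp.prime.dvd_finsetProd_iff _).1 h
    exact ⟨i, pq_dvd hp (hdt.pq i) (hp.prime.dvd_of_dvd_pow hi)⟩
  · rintro ⟨i, rfl⟩
    have h1 : (1 : ZMod 3).val ≠ 0 := by decide
    exact (dvd_pow_self (π i) h1).trans
      (Finset.dvd_prod_of_mem (fun i => π i ^ (1 : ZMod 3).val) (Finset.mem_univ i))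

theorem attached_iff (j : Ei ≃+* 𝓞 K) (hj : ∀ z : Ei, Algebra.norm ℤ (j z) = nr z)
    (hdt : Dt π (fun _ => 1)) (l : Ei) :
    Attached (j (pD π (fun _ => 1))) (j l) ↔ Pq l ∧ nr l % 9 = 1 ∧ (∀ i, l ≠ π i) ∧
      ∃ i, cs l (π i) ≠ 0 ∧ ∀ k, k ≠ i → cs l (π k) = 0 := by
  have h9 : (9 : ℤ) ∣ Algebra.norm ℤ (j l) - 1 ↔ nr l % 9 = 1 := by
    rw [hj]
    omega
  have hinj : Function.Injective π := by
    intro a b hab
    by_contra hne
    exact hdt.nd a b hne (by rw [hab])
  constructor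
  · rintro ⟨h1, h2, h3, h4, p, ⟨hp1, hp2, hp3, hp4⟩, huniq⟩
    have hl := (pq_iff j l).1 ⟨h1, h2⟩
    have hne : ∀ i, l ≠ π i := by
      intro i hi
      apply h4
      rw [map_dvd_iff j]
      exact (pq_factor hdt hl).2 ⟨i, hi⟩
    have hnd : ∀ i, ¬ l ∣ π i := fun i hd => hne i (pq_dvd hl (hdt.pq i) hd)
    obtain ⟨p', rfl⟩ := j.surjective p
    have hp' := (pq_iff j p').1 ⟨hp1, hp2⟩
    obtain ⟨i, rfl⟩ := (pq_factor hdt hp').1 ((map_dvd_iff j).1 hp3)
    refine ⟨hl, h9.1 h3, hne, i, fun h => hp4 ((isCubeMod_iff j hl (hnd i)).2 h), fun k hk => ?_⟩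
    by_contra hcon
    apply hk
    apply hinj
    apply j.injective
    apply huniq
    refine ⟨((pq_iff j _).2 (hdt.pq k)).1, ((pq_iff j _).2 (hdt.pq k)).2, ?_,
      fun h => hcon ((isCubeMod_iff j hl (hnd k)).1 h)⟩
    rw [map_dvd_iff j]
    exact (pq_factor hdt (hdt.pq k)).2 ⟨k, rfl⟩
  · rintro ⟨hl, h3, hne, i, hi, hk⟩
    have hnd : ∀ i, ¬ l ∣ π i := fun i hd => hne i (pq_dvd hl (hdt.pq i) hd)
    refine ⟨((pq_iff j _).2 hl).1, ((pq_iff j _).2 hl).2, h9.2 h3, ?_, j (π i), ⟨?_, ?_, ?_, ?_⟩, ?_⟩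
    · rw [map_dvd_iff j]
      intro h
      obtain ⟨k, h5⟩ := (pq_factor hdt hl).1 h
      exact hne k h5
    · exact ((pq_iff j _).2 (hdt.pq i)).1
    · exact ((pq_iff j _).2 (hdt.pq i)).2
    · rw [map_dvd_iff j]
      exact (pq_factor hdt (hdt.pq i)).2 ⟨i, rfl⟩
    · exact fun h => hi ((isCubeMod_iff j hl (hnd i)).1 h)
    · rintro q ⟨hq1, hq2, hq3, hq4⟩
      obtain ⟨q', rfl⟩ := j.surjective q
      have hq' := (pq_iff j q').1 ⟨hq1, hq2⟩
      obtain ⟨k, rfl⟩ := (pq_factor hdt hq').1 ((map_dvd_iff j).1 hq3)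
      by_contra hcon
      apply hq4
      rw [isCubeMod_iff j hl (hnd k)]
      exact hk k fun h => hcon (by rw [h])

theorem admissible_iff (j : Ei ≃+* 𝓞 K) (hj : ∀ z : Ei, Algebra.norm ℤ (j z) = nr z)
    (hdt : Dt π (fun _ => 1)) (S : Finset Ei) :
    Admissible (j (pD π (fun _ => 1))) (S.image j) ↔ ∃ j₀ : Ei → Fin (n + 1), Leaf π j₀ S := by
  have hpw : ∀ l m : Ei, Pq l → Pq m → m ≠ l → (IsCubeMod (j m) (j l) ↔ cs l m = 0) :=
    fun l m hl hm hne => isCubeMod_iff j hl fun hd => hne (pq_dvd hl hm hd).symm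
  constructor
  · rintro ⟨h1, h2⟩
    have h3 := fun l (hl : l ∈ S) => (attached_iff j hj hdt l).1 (h1 _ (Finset.mem_image_of_mem j hl))
    have h4 : ∀ l : Ei, ∃ i, l ∈ S → cs l (π i) ≠ 0 ∧ ∀ k, k ≠ i → cs l (π k) = 0 := by
      intro l
      by_cases hl : l ∈ S
      · obtain ⟨i, hi⟩ := (h3 l hl).2.2.2
        exact ⟨i, fun _ => hi⟩
      · exact ⟨0, fun h => absurd h hl⟩
    choose j₀ hj₀ using h4
    refine ⟨j₀, fun l hl => (h3 l hl).1, fun l hl => (h3 l hl).2.2.1, fun l hl => (h3 l hl).2.1,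
      fun l hl => (hj₀ l hl).1, fun l hl => (hj₀ l hl).2, fun l hl m hm hlm => ?_⟩
    rw [← hpw l m (h3 l hl).1 (h3 m hm).1 hlm.symm]
    exact h2 _ (Finset.mem_image_of_mem j hl) _ (Finset.mem_image_of_mem j hm)
      fun h => hlm (j.injective h).symm
  · rintro ⟨j₀, hL⟩
    constructor
    · intro l hl
      obtain ⟨l', hl', rfl⟩ := Finset.mem_image.1 hl
      exact (attached_iff j hj hdt l').2 ⟨hL.pq l' hl', hL.nine l' hl', hL.ne l' hl', j₀ l',
        hL.at0 l' hl', hL.off l' hl'⟩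
    · intro l hl m hm hlm
      obtain ⟨l', hl', rfl⟩ := Finset.mem_image.1 hl
      obtain ⟨m', hm', rfl⟩ := Finset.mem_image.1 hm
      have hne : m' ≠ l' := fun h => hlm (by rw [h])
      rw [hpw l' m' (hL.pq l' hl') (hL.pq m' hm') hne]
      exact hL.pw l' hl' m' hm' hne.symm

/-- There is a field generated by the cube roots. -/
theorem exists_generated (S : Finset (𝓞 K)) :
    ∃ (F : Type) (_ : Field F) (_ : NumberField F) (_ : Algebra K F), Generated S F := by
  let p : Polynomial K := ∏ l ∈ S, (Polynomial.X ^ 3 - Polynomial.C (l : K))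
  let F : Type := p.SplittingField
  have : NumberField F := NumberField.of_module_finite K F
  have hp0 : p ≠ 0 := Finset.prod_ne_zero_iff.2 fun l _ =>
    Polynomial.X_pow_sub_C_ne_zero (by norm_num) _
  have hsp : (p.map (algebraMap K F)).Splits := Polynomial.SplittingField.splits p
  have hp0' : p.map (algebraMap K F) ≠ 0 :=
    (Polynomial.map_ne_zero_iff (algebraMap K F).injective).2 hp0
  have hroot : ∀ l : 𝓞 K, ∃ x : F, l ∈ S → x ^ 3 = algebraMap K F (l : K) := by
    intro l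
    by_cases hl : l ∈ S
    · have h1 : ((Polynomial.X ^ 3 - Polynomial.C (l : K)).map (algebraMap K F)).Splits :=
        hsp.of_dvd hp0' (Polynomial.map_dvd _ (Finset.dvd_prod_of_mem _ hl))
      obtain ⟨x, hx⟩ := h1.exists_eval_eq_zero (by
        rw [Polynomial.degree_map, Polynomial.degree_X_pow_sub_C (by norm_num)]
        norm_num)
      refine ⟨x, fun _ => ?_⟩
      simp at hx
      linear_combination hx
    · exact ⟨0, fun h => absurd h hl⟩
  choose r hr using hroot
  let M : IntermediateField K F := IntermediateField.adjoin K (r '' S)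
  have hMn : NumberField M := NumberField.of_module_finite K M
  have hrM : ∀ l ∈ S, r l ∈ M := fun l hl =>
    IntermediateField.subset_adjoin K _ ⟨l, hl, rfl⟩
  refine ⟨M, inferInstance, hMn, inferInstance, fun l => if h : l ∈ S then ⟨r l, hrM l h⟩ else 0,
    fun l hl => ?_, fun L hL1 hL2 => ?_⟩
  · simp only [dif_pos hl]
    apply Subtype.ext
    exact hr l hl
  · rw [eq_top_iff]
    intro y _
    let L' : IntermediateField K F :=
      { (L.map (algebraMap M F)) with
        algebraMap_mem' := fun k => ⟨algebraMap K M k, hL1 k, rfl⟩ }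
    have h1 : M ≤ L' := by
      apply IntermediateField.adjoin_le_iff.2
      rintro _ ⟨l, hl, rfl⟩
      have h2 := hL2 l hl
      simp only [dif_pos (Finset.mem_coe.1 hl)] at h2
      exact ⟨_, h2, rfl⟩
    obtain ⟨y', hy', h2⟩ := h1 y.2
    have h3 : y' = y := Subtype.ext h2
    rw [← h3]
    exact hy'

theorem towers_of (K : Type) [Field K] [NumberField K] [IsCyclotomicExtension {3} ℚ K]
    {D : 𝓞 K} (hD : ClsK D) (h : Tri D) : Towers D := by
  obtain ⟨⟨j, hj⟩, -⟩ := Pool.Agent.Y455.CTK.jex K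
  obtain ⟨z, rfl⟩ := j.surjective D
  have hcls : ClsE z := by
    obtain ⟨h1, h2, h3⟩ := hD
    refine ⟨(three_iff j z).1 h1, ?_, by rw [← hj]; exact h3⟩
    intro x hx
    have h4 := h2 (j x) (by rw [← map_mul]; exact map_dvd j hx)
    exact (MulEquiv.isUnit_map j).1 h4
  obtain ⟨n, π, hdt, rfl, -⟩ := Pool.Agent.Y696.CTK.ge2 z hcls
  have htri := Pool.Agent.Y696.CTK.tri_iff j Pool.Agent.Y696.CTK.parts hdt hcls.2.2
  have hk := htri.1 h
  have hinj : Function.Injective π := by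
    intro a b hab
    by_contra hne
    exact hdt.nd a b hne (by rw [hab])
  intro S hS
  obtain ⟨S', rfl⟩ : ∃ S' : Finset Ei, S = S'.image j := by
    refine ⟨S.image j.symm, ?_⟩
    rw [Finset.image_image]
    ext x
    simp
  obtain ⟨j₀, hL⟩ := (admissible_iff j hj hdt S').1 hS
  refine ⟨?_, exists_generated _, fun F _ _ _ hF => ?_⟩
  · have h1 := more_leaves hdt.pq hinj hL 0
    refine (h1.image j.injective.injOn).mono ?_
    rintro _ ⟨l, ⟨hl1, hl2⟩, rfl⟩
    refine ⟨fun h => hl1 ?_, ?_⟩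
    · obtain ⟨l', hl', h2⟩ := Finset.mem_image.1 h
      rw [← j.injective h2]
      exact hl'
    · rw [← Finset.image_insert]
      refine (admissible_iff j hj hdt _).2 ⟨Function.update j₀ l 0, hl2 _ (fun x hx => ?_) ?_⟩
      · rw [Function.update_of_ne fun h => hl1 (by rw [← h]; exact hx)]
      · rw [Function.update_self]
  · obtain ⟨r, hr1, hr2⟩ := hF
    have hr1' : ∀ l ∈ S', r (j l) ^ 3 = algebraMap K F ((j l : 𝓞 K) : K) :=
      fun l hl => hr1 _ (Finset.mem_image_of_mem j hl)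
    have hr2' : ∀ L : Subfield F, (∀ k : K, algebraMap K F k ∈ L) → (∀ l ∈ S', r (j l) ∈ L) →
        L = ⊤ := fun L h2 h3 => hr2 L h2 fun l hl => by
      obtain ⟨l', hl', rfl⟩ := Finset.mem_image.1 hl
      exact h3 l' hl'
    obtain ⟨h1, h2, -⟩ := tower j hdt hk hcls.2.2 hL (F := F) (fun l => r (j l)) hr1' hr2'
    obtain ⟨L, h3, h4, h5⟩ := Pool.Agent.R432.V.eulF j hdt hk hcls.2.2 hL (F := F)
      (fun l => r (j l)) hr1' hr2'
    rw [Finset.card_image_of_injective _ j.injective]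
    refine ⟨h1, ⟨L, h3, fun s hs => ?_, h4⟩, h2⟩
    have e1 : algebraMap (𝓞 K) (𝓞 F) (3 * j (pD π fun _ => 1) * ∏ l ∈ S'.image j, l) =
        Pool.Agent.R432.V.io F j (3 * pD π (fun _ => 1) * ∏ l ∈ S', l) := by
      rw [Finset.prod_image j.injective.injOn, Pool.Agent.R432.V.io_apply, map_mul j, map_mul j,
        map_ofNat, map_prod j]
    rw [e1]
    refine (h5 s hs).congr_fun fun v => ?_
    unfold factor Pool.Agent.R432.V.ef q N Pool.Agent.R432.V.qv Pool.Agent.R432.V.cn
    have e2 : algebraMap (𝓞 K) (𝓞 F) (j (pD π fun _ => 1)) =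
      Pool.Agent.R432.V.io F j (pD π fun _ => 1) := rfl
    rw [e2, Nat.cast_add, Nat.cast_one, add_sub_add_right_eq_sub]

end proof

/-- **Main theorem.**  `K` is the field of the third roots of unity.  (1) If `D` is in the class,
`E_D(K)` is finite and `Ш(E_D / K)` has no elements of order `3`, then `D` has the property `Towers`:
for every admissible `S` and `F = K(∛l : l ∈ S)` the degree `[F : K]` is `3 ^ #S`, the `L`-function of
`E_D` over `F` is entire and not zero at `s = 1`, and `E_D(F)` is finite.  (2) There are at least `c X`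
elements `D` of norm at most `X` in the class, and for all large `X` at least `63.9` percent of them
have the property `Towers`. -/
theorem result (K : Type) [Field K] [NumberField K] [IsCyclotomicExtension {3} ℚ K] :
    (∀ D : 𝓞 K, InClass D → NoThree D → Towers D) ∧
    (∃ c : ℝ, 0 < c ∧ ∃ X₀ : ℕ, ∀ X : ℕ, X₀ ≤ X →
      c * X ≤ ({D : 𝓞 K | Algebra.norm ℤ D ≤ X ∧ InClass D}.ncard : ℝ)) ∧
    ∃ X₀ : ℕ, ∀ X : ℕ, X₀ ≤ X →
      (0.639 : ℝ) * ({D : 𝓞 K | Algebra.norm ℤ D ≤ X ∧ InClass D}.ncard : ℝ) ≤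
        ({D : 𝓞 K | Algebra.norm ℤ D ≤ X ∧ InClass D ∧ Towers D}.ncard : ℝ) := by
  obtain ⟨h1, -, h2, h3, -⟩ := Pool.Agent.XL6.finalTP K
  refine ⟨fun D hD h => towers_of K hD h, h1, ?_⟩
  obtain ⟨c, hc, X₁, hX₁⟩ := h1
  obtain ⟨X₂, hX₂⟩ := Filter.eventually_atTop.1 (h2.eventually (lt_mem_nhds h3))
  refine ⟨max (max X₁ X₂) 1, fun X hX => ?_⟩
  have hXa : X₁ ≤ X := (le_max_left _ _).trans ((le_max_left _ _).trans hX)
  have hXb : X₂ ≤ X := (le_max_right _ _).trans ((le_max_left _ _).trans hX)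
  have hXc : 1 ≤ X := (le_max_right _ _).trans hX
  have h4 := hX₁ X hXa
  have h5 := hX₂ X hXb
  have hXr : (0 : ℝ) < (X : ℝ) := by exact_mod_cast hXc
  have hpos : (0 : ℝ) < ({D : 𝓞 K | Algebra.norm ℤ D ≤ X ∧ InClass D}.ncard : ℝ) :=
    lt_of_lt_of_le (mul_pos hc hXr) h4
  have h6 : (0.639 : ℝ) * ({D : 𝓞 K | Algebra.norm ℤ D ≤ X ∧ InClass D}.ncard : ℝ) <
      ({D : 𝓞 K | Algebra.norm ℤ D ≤ X ∧ Pool.Agent.Y696.CTK.ClsK D ∧
        Pool.Agent.Y696.CTK.Tri D}.ncard : ℝ) := (lt_div_iff₀ hpos).1 h5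
  refine h6.le.trans ?_
  have hfin : {D : 𝓞 K | Algebra.norm ℤ D ≤ X ∧ InClass D}.Finite := by
    by_contra hcon
    rw [(Set.not_finite.1 hcon).ncard, Nat.cast_zero] at hpos
    exact lt_irrefl _ hpos
  have h7 : {D : 𝓞 K | Algebra.norm ℤ D ≤ X ∧ Pool.Agent.Y696.CTK.ClsK D ∧
      Pool.Agent.Y696.CTK.Tri D} ⊆
      {D : 𝓞 K | Algebra.norm ℤ D ≤ X ∧ InClass D ∧ Towers D} :=
    fun D h => ⟨h.1, h.2.1, towers_of K h.2.1 h.2.2⟩
  exact_mod_cast Set.ncard_le_ncard h7 (hfin.subset fun D h => ⟨h.1, h.2.1⟩)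

end Pool.Agent.Results.MP_1a91b9_nt.CubicTowersValues
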