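import Pool.Agent.R425.P.Al
import Pool.Agent.R425.P.Ma
import Pool.Agent.R425.P.Lt
import Pool.Agent.R425.P.Pr
import Pool.Agent.R425.P.Pc
import Pool.Agent.R425.G.An
import Pool.Agent.Y852.GS.Mins
import Pool.Agent.Y238.G.Hasp

/-!
# The Birch and Swinnerton-Dyer formula modulo 2 over abelian 2-extensions: positive discriminant

`W` is the minimal equation of an elliptic curve `E` over `ℚ` with positive discriminant (so that `E(ℝ)`
has two components), such that `a_q(E)` is odd for some prime `q` that does not divide `2 Δ`, and such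
that the periods of the newform of `E` are in an odd multiple of the period lattice of `E`.
`K ⊂ ℚ(ζ_m)` is a number field of degree `2^n`, with `m` squarefree and prime to `2 Δ`, in which the
primes that divide `2 Δ` split completely.  For `F = ℚ` and for `F = K` let
`x(F) = L(E/F, 1) √|Δ_F| #E(F)_tors² / Ω`.  The formula of Birch and Swinnerton-Dyer modulo 2 says that
`x(F)` is rational with odd denominator, and that its numerator is odd if and only if the rank of `E(F)`
is zero, `Ш(E/F)[2^∞] = 0` and the Tamagawa numbers are odd.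

Let `A` be the statement that `K` is totally real and `a_l` is odd for all primes `l` that divide the
discriminant of `K`.  We prove that `x(ℚ)` and `x(K)` have odd denominators and the two equivalences

* `x(K)` is odd if and only if `x(ℚ)` is odd and `A` holds;
* `rank E(K) = 0` and `Ш(E/K)[2^∞] = 0` if and only if `rank E(ℚ) = 0`, `Ш(E/ℚ)[2^∞] = 0` and `A` holds,

and that the Tamagawa products over `ℚ` and over `K` have the same parity.  So the formula modulo 2
over `ℚ` implies the formula modulo 2 over all such fields `K`; the converse holds if `A` holds; and if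
`A` does not hold, in particular for all such totally complex fields, the formula modulo 2 holds over `K`
without any assumption on `E` over `ℚ`.

The new points, compared with a negative discriminant.  The lattice is rectangular, with a real period
`ω₁` and an imaginary period `i ω₂`; `∫_{E(ℝ)} |ω| = 2 ω₁`, and the value at the centre is an integral
multiple of `2 ω₁ / t` with `t` odd, by the relation of Hecke at `q` and complex conjugation.  Over a
totally complex field the product of the periods of the twists is `2^(r₂)` times the period of `E/K`.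
The cubic field `A` of `E` is totally real.  For a totally real field `K` the condition at the real
places (a sign at the smallest root) has index two, and compensates for the additional unit of `A`; for a
totally complex field there is no such condition, and there is a class in `H¹(ℚ, E[2])`, unramified
outside `2 Δ`, which becomes a nontrivial element of the 2-Selmer group over `K`.
-/

set_option autoImplicit false

open NumberField NumberField.InfinitePlace IsDedekindDomain WeierstrassCurve MeasureTheory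
open UpperHalfPlane MatrixGroups CongruenceSubgroup

namespace Pool.Agent.Results.MP_1a91b9_nt.FormulaModTwoPositive

open scoped Classical

open Pool.Agent.TH841.NF.D (Sha)

/-- The curve given by the equation of `W` over the ring `R`. -/
abbrev base (W : WeierstrassCurve ℤ) (R : Type) [CommRing R] : WeierstrassCurve R :=
  W.map (Int.castRingHom R)

/-- The number of the affine points `(x, y)` over the ring `R`. -/
noncomputable def pts (W : WeierstrassCurve ℤ) (R : Type) [CommRing R] : ℕ :=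
  Nat.card {P : R × R // (base W R).toAffine.Equation P.1 P.2}

section

variable {K : Type} [Field K] [NumberField K]

/-- `a_v = N v + 1 - #W(k_v)`, the points over the residue field `k_v` counted with the point at
infinity. -/
noncomputable def a (W : WeierstrassCurve ℤ) (v : HeightOneSpectrum (𝓞 K)) : ℤ :=
  (Ideal.absNorm v.asIdeal : ℤ) - pts W (𝓞 K ⧸ v.asIdeal)

/-- The Euler factor of `L(W/K, s)` at `v` : `(1 - a_v N v^(-s) + N v^(1 - 2 s))⁻¹` if the
discriminant is a unit at `v`, and `(1 - a_v N v^(-s))⁻¹` otherwise. -/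
noncomputable def factor (W : WeierstrassCurve ℤ) (s : ℂ) (v : HeightOneSpectrum (𝓞 K)) : ℂ :=
  (1 - (a W v : ℂ) * (Ideal.absNorm v.asIdeal : ℂ) ^ (-s) +
    if ((W.Δ : ℤ) : 𝓞 K) ∈ v.asIdeal then 0 else (Ideal.absNorm v.asIdeal : ℂ) ^ (1 - 2 * s))⁻¹

/-- The equation is minimal at the finite place `v` of `K`: no change of variables over `K` that
keeps the coefficients integral at `v` decreases the valuation of the discriminant. -/
def MinimalAt (W : WeierstrassCurve ℤ) (v : HeightOneSpectrum (𝓞 K)) : Prop :=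
  ∀ C : VariableChange K, v.valuation K (C • base W K).a₁ ≤ 1 →
    v.valuation K (C • base W K).a₂ ≤ 1 → v.valuation K (C • base W K).a₃ ≤ 1 →
    v.valuation K (C • base W K).a₄ ≤ 1 → v.valuation K (C • base W K).a₆ ≤ 1 →
    v.valuation K (C • base W K).Δ ≤ v.valuation K (base W K).Δ

/-- `E⁰(K_v)`, the group of the points of `W` over the completion `K_v` with nonsingular reduction:
the points `(x, y)` where `x` is not integral, or one of the partial derivatives of
`y² + a₁ x y + a₃ y - x³ - a₂ x² - a₄ x - a₆` is a unit at `(x, y)`, and the point at infinity. -/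
noncomputable def nonsing (W : WeierstrassCurve ℤ) (v : HeightOneSpectrum (𝓞 K)) :
    AddSubgroup (base W (v.adicCompletion K)).toAffine.Point :=
  AddSubgroup.closure {P | ∀ x y h, P = Affine.Point.some x y h →
    1 < Valued.v x ∨ Valued.v (W.a₁ * y - (3 * x ^ 2 + 2 * W.a₂ * x + W.a₄)) = 1 ∨
      Valued.v (2 * y + W.a₁ * x + W.a₃) = 1}

/-- The Tamagawa number `c_v = [E(K_v) : E⁰(K_v)]` of a minimal equation. -/
noncomputable def c (W : WeierstrassCurve ℤ) (v : HeightOneSpectrum (𝓞 K)) : ℕ :=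
  (nonsing W v).index

end

section

variable (K : Type) [Field K] [NumberField K]

/-- The product of the Tamagawa numbers. -/
noncomputable def Tam (W : WeierstrassCurve ℤ) : ℕ := ∏ᶠ v : HeightOneSpectrum (𝓞 K), c W v

/-- The 2-primary part of the Tate-Shafarevich group over `K`. -/
def Sha2 (W : WeierstrassCurve ℤ) : Set (Sha (base W K)) := {x | ∃ n : ℕ, 2 ^ n • x = 0}

/-- The torsion subgroup of the group of the points over `K`. -/
def tors (W : WeierstrassCurve ℤ) : Set (base W K).toAffine.Point := {P | ∃ n : ℕ, 0 < n ∧ n • P = 0}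

/-- The rank of the group of the points over `K`. -/
noncomputable def rank (W : WeierstrassCurve ℤ) : ℕ := Module.finrank ℤ (base W K).toAffine.Point

end

/-- `4 x³ + b₂ x² + 2 b₄ x + b₆ = (2 y + a₁ x + a₃)²`, where `b₂ = a₁² + 4 a₂`,
`b₄ = 2 a₄ + a₁ a₃`, `b₆ = a₃² + 4 a₆`. -/
def cubic (W : WeierstrassCurve ℤ) {R : Type} [CommRing R] (x : R) : R :=
  4 * x ^ 3 + W.b₂ * x ^ 2 + 2 * W.b₄ * x + W.b₆

/-- `∫_{W(ℝ)} |ω|` with `ω = dx / (2 y + a₁ x + a₃)`, as an integral over `x`: two real points lie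
over each `x` with `cubic x > 0`. -/
noncomputable def realPeriod (W : WeierstrassCurve ℤ) : ℝ :=
  2 * ∫ x in {x : ℝ | 0 < cubic W x}, 1 / √(cubic W x)

/-- `2 ∫_{W(ℂ)} |ω ∧ ω̄|`, where `|ω ∧ ω̄| = du dv` in a local parameter `z = u + i v` with
`dz = ω`, as an integral over `x`: two points lie over a general `x`, and `|ω ∧ ω̄|` is the area
element of the plane of `x` divided by `|cubic x|`. -/
noncomputable def complexPeriod (W : WeierstrassCurve ℤ) : ℝ := 2 * (2 * ∫ x : ℂ, 1 / ‖cubic W x‖)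

/-- The global period of an equation that is minimal at all finite places. -/
noncomputable def Omega (K : Type) [Field K] [NumberField K] (W : WeierstrassCurve ℤ) : ℝ :=
  realPeriod W ^ nrRealPlaces K * complexPeriod W ^ nrComplexPlaces K

/-- `x` is the value `L(E/K, 1) √|Δ_K| (#E(K)_tors)² / Ω`, where `L` is the entire function given by
the Euler product of `W` over `K` for `Re s > 3/2`. -/
def HasValue (K : Type) [Field K] [NumberField K] (W : WeierstrassCurve ℤ) (x : ℚ) : Prop :=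
  ∃ L : ℂ → ℂ, Differentiable ℂ L ∧
    (∀ s : ℂ, 3 / 2 < s.re → HasProd (factor (K := K) W s) (L s)) ∧
    L 1 * √|(discr K : ℝ)| * (Nat.card (tors K W) : ℂ) ^ 2 = x * Omega K W

/-- **The formula of Birch and Swinnerton-Dyer modulo 2** for `W` over `K` (the equation being
minimal): the `L`-function is entire, `x = L(E/K, 1) √|Δ_K| (#E(K)_tors)² / Ω` is a rational number with
odd denominator, and its numerator is odd if and only if the rank is zero, the 2-primary part of the
Tate-Shafarevich group is zero and the product of the Tamagawa numbers is odd.  (The conjecture says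
that `x = #Ш Tam` if the rank is zero, and `x = 0` otherwise.) -/
def BSDModTwo (K : Type) [Field K] [NumberField K] (W : WeierstrassCurve ℤ) : Prop :=
  ∃ x : ℚ, HasValue K W x ∧ Odd x.den ∧
    (Odd x.num ↔ rank K W = 0 ∧ Sha2 K W = {0} ∧ Odd (Tam K W))

section modular

variable {N : ℕ}

/-- The `n`-th coefficient of the cusp form `f = ∑ a_n q^n`. -/
noncomputable def co (f : CuspForm (Gamma0 N : Subgroup (GL (Fin 2) ℝ)) 2) (n : ℕ) : ℂ :=
  (qExpansion 1 f).coeff n

/-- `2 π i ∫_(i∞)^z f(w) dw = ∑ a_n / n e^(2 π i n z)`. -/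
noncomputable def prim (f : CuspForm (Gamma0 N : Subgroup (GL (Fin 2) ℝ)) 2) (z : ℂ) : ℂ :=
  ∑' n : ℕ, co f n / n * Complex.exp (2 * Real.pi * Complex.I * n * z)

/-- The cusp form `f` of weight two for `Γ₀(N)` is the newform of `W`: it is a normalised eigenform
of the Hecke operators and of the Fricke involution, with real coefficients that satisfy the bounds
of Hasse, `N` has the same prime divisors as the discriminant, and `a_p = p + 1 - #W(𝔽_p)`. -/
structure IsNewform (W : WeierstrassCurve ℤ) (N : ℕ)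
    (f : CuspForm (Gamma0 N : Subgroup (GL (Fin 2) ℝ)) 2) : Prop where
  one : co f 1 = 1
  real : ∀ n, (co f n).im = 0
  mul : ∀ m n : ℕ, Nat.Coprime m n → co f (m * n) = co f m * co f n
  pow : ∀ p j : ℕ, p.Prime → co f (p ^ (j + 2)) = co f p * co f (p ^ (j + 1)) -
      (if p ∣ N then 0 else (p : ℂ) * co f (p ^ j))
  good : ∀ p : ℕ, p.Prime → ¬ p ∣ N → ‖co f p‖ ≤ 2 * Real.sqrt p
  bad : ∀ p : ℕ, p.Prime → p ∣ N → ‖co f p‖ ≤ 1
  fricke : ∃ w : ℝ, (w = 1 ∨ w = -1) ∧ ∀ τ τ' : ℍ, (τ' : ℂ) * ((N : ℂ) * (τ : ℂ)) = -1 →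
    f τ' = -(w : ℂ) * (N : ℂ) * (τ : ℂ) ^ 2 * f τ
  level : ∀ p : ℕ, p.Prime → (p ∣ N ↔ (p : ℤ) ∣ W.Δ)
  coef : ∀ p : ℕ, p.Prime → co f p = (p : ℂ) - (pts W (ZMod p) : ℂ)

end modular

section proof

open Pool.Agent.Y702

variable {N : ℕ} [NeZero N]

omit [NeZero N] in
lemma isForm {W : WeierstrassCurve ℤ} {f : CuspForm (Gamma0 N : Subgroup (GL (Fin 2) ℝ)) 2}
    (h : IsNewform W N f) : G.IsForm W N f :=
  ⟨h.one, h.real, h.mul, h.pow, h.good, h.bad, h.fricke, h.level, h.coef⟩

lemma c_eq {K : Type} [Field K] [NumberField K] (W : WeierstrassCurve ℤ)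
    (v : HeightOneSpectrum (𝓞 K)) : c W v = Pool.Agent.R425.G.cv W v := rfl

lemma cubic_eq (W : WeierstrassCurve ℤ) {R : Type} [CommRing R] (x : R) :
    cubic W x = G.cubic W x := rfl

lemma sha_iff {K : Type} [Field K] [NumberField K] (W : WeierstrassCurve ℤ) :
    (∀ s : Sha (base W K), 2 • s = 0 → s = 0) ↔ Sha2 K W = {0} := by
  constructor
  · intro h
    have key : ∀ (j : ℕ) (x : Sha (base W K)), 2 ^ j • x = 0 → x = 0 := by
      intro j
      induction j with
      | zero => intro x hx; rw [pow_zero, one_nsmul] at hx; exact hx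
      | succ j ih =>
        intro x hx
        rw [pow_succ, mul_nsmul] at hx
        exact ih x (h _ hx)
    ext x
    constructor
    · rintro ⟨k, hk⟩
      exact key k x hk
    · rintro rfl
      exact ⟨0, nsmul_zero _⟩
  · intro h s hs
    have h1 : s ∈ Sha2 K W := ⟨1, by rw [pow_one]; exact hs⟩
    rw [h] at h1
    exact h1

/-- the two forms of the algebraic side -/
lemma side_iff {K : Type} [Field K] [NumberField K] (W : WeierstrassCurve ℤ) (hW : W.Δ ≠ 0) :
    (rank K W = 0 ∧ Sha2 K W = {0}) ↔ (Finite (base W K).toAffine.Point ∧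
      ∀ s : Sha (base W K), 2 • s = 0 → s = 0) := by
  rw [sha_iff]
  have h : rank K W = 0 ↔ Finite (base W K).toAffine.Point := Pool.Agent.R425.G.rank_iff W hW
  rw [h]

/-- the value is unique -/
lemma value_uniq {K : Type} [Field K] [NumberField K] (W : WeierstrassCurve ℤ)
    (hO : Omega K W ≠ 0) {x y : ℚ} (hx : HasValue K W x) (hy : HasValue K W y) : x = y := by
  obtain ⟨L1, d1, p1, e1⟩ := hx
  obtain ⟨L2, d2, p2, e2⟩ := hy
  have h : L1 = L2 := Pool.Agent.R425.G.L_uniq (W := W) (K := K) d1 d2 p1 p2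
  rw [h, e2] at e1
  have h1 : (Omega K W : ℂ) ≠ 0 := by exact_mod_cast hO
  have h2 := mul_right_cancel₀ h1 e1
  exact_mod_cast h2.symm

/-- the value in terms of integers -/
lemma value_of {K : Type} [Field K] [NumberField K] (W : WeierstrassCurve ℤ) {H : ℂ → ℂ}
    (hHd : Differentiable ℂ H)
    (hHp : ∀ s : ℂ, 3 / 2 < s.re → HasProd (factor (K := K) W s) (H s)) {r : ℝ} (hr : H 1 = r)
    {D M' : ℤ} (hD : Odd D) (hT : Odd (Nat.card (tors K W)))
    (hval : |(D : ℝ)| * (|r| * √|(discr K : ℝ)|) = |(M' : ℝ)| * Omega K W) :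
    ∃ x : ℚ, HasValue K W x ∧ Odd x.den ∧ (Odd x.num ↔ Odd M') := by
  obtain ⟨ε, hε, hεr⟩ : ∃ ε : ℤ, Odd ε ∧ r = ε * |r| := by
    rcases le_total 0 r with h | h
    · exact ⟨1, odd_one, by rw [abs_of_nonneg h]; push_cast; ring⟩
    · exact ⟨-1, odd_one.neg, by rw [abs_of_nonpos h]; push_cast; ring⟩
  have hDo' : Odd |D| := by
    rcases abs_choice D with h | h
    · rw [h]; exact hD
    · rw [h]; exact hD.neg
  have hM : Odd |M'| ↔ Odd M' := by
    rcases abs_choice M' with h | h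
    · rw [h]
    · rw [h]
      exact ⟨fun h1 => by simpa using h1.neg, fun h1 => h1.neg⟩
  have hD0 : (|D| : ℤ) ≠ 0 := by
    intro h
    rw [h] at hDo'
    exact absurd hDo' (by decide)
  have hD0' : ((|D| : ℤ) : ℝ) ≠ 0 := by exact_mod_cast hD0
  obtain ⟨h1, h2⟩ := Pool.Agent.R425.G.odd_frac (ε * |M'| * (Nat.card (tors K W) : ℤ) ^ 2) |D| hDo'
  have hreal : r * √|(discr K : ℝ)| * (Nat.card (tors K W) : ℝ) ^ 2 =
      ((ε * |M'| * (Nat.card (tors K W) : ℤ) ^ 2 : ℤ) : ℝ) / ((|D| : ℤ) : ℝ) * Omega K W := by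
    rw [div_mul_eq_mul_div, eq_div_iff hD0', hεr]
    push_cast
    linear_combination (ε : ℝ) * (Nat.card (tors K W) : ℝ) ^ 2 * hval
  refine ⟨((ε * |M'| * (Nat.card (tors K W) : ℤ) ^ 2 : ℤ) : ℚ) / (|D| : ℤ), ⟨H, hHd, hHp, ?_⟩,
    h1, ?_⟩
  · rw [hr]
    have h5 := congrArg (fun y : ℝ => (y : ℂ)) hreal
    simp only [Complex.ofReal_mul, Complex.ofReal_pow, Complex.ofReal_natCast, Complex.ofReal_div,
      Complex.ofReal_intCast] at h5
    rw [h5, Rat.cast_div, Rat.cast_intCast, Rat.cast_intCast]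
  · rw [h2, Int.odd_mul, Int.odd_mul, hM]
    have h3 : Odd ((Nat.card (tors K W) : ℤ) ^ 2) := Odd.pow (by exact_mod_cast hT)
    exact ⟨fun h => h.1.2, fun h => ⟨⟨hε, h⟩, h3⟩⟩

end proof

/-- **Main theorem.** Let `W` be a Weierstrass equation with integral coefficients and positive
discriminant `Δ`, minimal at all primes; let `f` be the newform of `W`, of a level `N` with the same
prime divisors as `Δ`; let `Λ` be the period lattice of the differential `dx / (2 y + a₁ x + a₃)` of `W`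
(the lattice with `g₂ = c₄ / 12`, `g₃ = c₆ / 216`), and assume that `c` times the periods of
`2 π i f(z) dz` on `Γ₀(N)` are in `Λ` for an odd `c` (the Manin constant is odd).  Assume that `a_q` is odd
for some prime `q` that does not divide `2 Δ`.  Let `m` be squarefree and prime to `2 Δ`, `M` the `m`-th
cyclotomic field, `K` a subfield of degree `2^n` such that the places that divide `2 Δ` have a residue
field of prime order, that is, the primes that divide `2 Δ` split completely in `K`.  Let `A` be the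
statement that `K` is totally real and `a_l` is odd for all primes `l` that divide the discriminant. -/
theorem result {N : ℕ} [NeZero N] (W : WeierstrassCurve ℤ) (hΔ : 0 < W.Δ)
    (hmin : ∀ p : HeightOneSpectrum (𝓞 ℚ), MinimalAt W p)
    (f : CuspForm (Gamma0 N : Subgroup (GL (Fin 2) ℝ)) 2) (hf : IsNewform W N f)
    (Λ : PeriodPair) (hg₂ : Λ.g₂ = (W.c₄ : ℂ) / 12) (hg₃ : Λ.g₃ = (W.c₆ : ℂ) / 216)
    (hman : ∃ c : ℤ, Odd c ∧ ∀ γ ∈ Gamma0 N, ∀ z : ℍ,
      (c : ℂ) * (prim f ((γ • z : ℍ) : ℂ) - prim f (z : ℂ)) ∈ Λ.lattice)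
    (q : ℕ) (hq : q.Prime) (hqΔ : ¬ (q : ℤ) ∣ 2 * W.Δ) (hqo : Odd ((q : ℤ) - pts W (ZMod q)))
    (m : ℕ) [NeZero m] (hsq : Squarefree m)
    (hm : ∀ l : ℕ, l.Prime → l ∣ m → ¬ (l : ℤ) ∣ 2 * W.Δ)
    (M : Type) [Field M] [NumberField M] [IsCyclotomicExtension {m} ℚ M]
    (K : IntermediateField ℚ M) (n : ℕ) (hn : Module.finrank ℚ K = 2 ^ n)
    (hsplit : ∀ v : HeightOneSpectrum (𝓞 K), ((2 * W.Δ : ℤ) : 𝓞 K) ∈ v.asIdeal →
      (Ideal.absNorm v.asIdeal).Prime)
    (A : Prop) (hA : A ↔ IsTotallyReal K ∧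
      ∀ l : ℕ, l.Prime → (l : ℤ) ∣ discr K → Odd ((l : ℤ) - pts W (ZMod l))) :
    ((∀ v : HeightOneSpectrum (𝓞 K), MinimalAt W v) ∧
      {v : HeightOneSpectrum (𝓞 K) | c W v ≠ 1}.Finite ∧
      {p : HeightOneSpectrum (𝓞 ℚ) | c W p ≠ 1}.Finite ∧
      Odd (Nat.card (tors K W)) ∧ Odd (Nat.card (tors ℚ W)) ∧ (Odd (Tam K W) ↔ Odd (Tam ℚ W))) ∧
    (∃ x₀ x : ℚ, HasValue ℚ W x₀ ∧ HasValue K W x ∧ Odd x₀.den ∧ Odd x.den ∧
      (Odd x.num ↔ Odd x₀.num ∧ A)) ∧
    ((rank K W = 0 ∧ Sha2 K W = {0}) ↔ (rank ℚ W = 0 ∧ Sha2 ℚ W = {0}) ∧ A) ∧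
    (BSDModTwo ℚ W → BSDModTwo K W) ∧
    (A → BSDModTwo K W → BSDModTwo ℚ W) ∧
    (¬ A → BSDModTwo K W) := by
  have hA2 : A ↔ nrComplexPlaces K = 0 ∧
      ∀ l : ℕ, l.Prime → (l : ℤ) ∣ discr K → Odd ((l : ℤ) - pts W (ZMod l)) := by
    rw [hA]
    refine and_congr_left fun _ => ?_
    rw [nrComplexPlaces, Fintype.card_eq_zero_iff]
    constructor
    · intro h
      exact ⟨fun ⟨w, hw⟩ => not_isReal_iff_isComplex.2 hw (h.isReal w)⟩
    · intro h
      refine ⟨fun v => ?_⟩
      by_contra hv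
      exact h.false ⟨v, not_isReal_iff_isComplex.1 hv⟩
  have hgal : IsGalois ℚ K := Pool.Agent.Y702.L.gal_F m M K
  have hfI := isForm hf
  have hunr : ∀ (p : ℕ), p.Prime → ¬ p ∣ m → ∀ v : HeightOneSpectrum (𝓞 K), (p : 𝓞 K) ∈ v.asIdeal →
      v.valuation K (p : K) = WithZero.exp (-1 : ℤ) :=
    fun p hp hpm v hv => Pool.Agent.Y702.Fn.unr m M K hp hpm v hv
  have hnr : ∀ x : ℚ, Pool.Agent.TH115.GD.cub (Pool.Agent.Y702.G.sh W) x ≠ 0 :=
    Pool.Agent.R425.G.no_root_Q W hq hqΔ hqo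
  have hnrK := Pool.Agent.Y702.G.no_root (Pool.Agent.Y702.G.sh W) hnr K n hn
  have hdisc : ∀ l : ℕ, l.Prime → (l : ℤ) ∣ discr K → ¬ (l : ℤ) ∣ 2 * W.Δ := by
    intro l hl hld
    have hlm : l ∣ m := by
      by_contra hcon
      exact Pool.Agent.R425.not_disc K hl (fun v hv => hunr l hl hcon v hv) hld
    exact hm l hl hlm
  have htK : Odd (Nat.card (tors K W)) := Pool.Agent.R425.G.tors_odd W hΔ.ne' hnrK
  have htQ : Odd (Nat.card (tors ℚ W)) := Pool.Agent.R425.G.tors_odd W hΔ.ne' hnr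
  -- the places
  have hbelow : ∀ v : HeightOneSpectrum (𝓞 K), ((W.Δ : ℤ) : 𝓞 K) ∈ v.asIdeal →
      (∀ x : ℚ, v.valuation K (algebraMap ℚ K x) = (v.under (𝓞 ℚ)).valuation ℚ x) ∧
      (Ideal.absNorm v.asIdeal).Prime := by
    intro v hv
    have h2 : ((2 * W.Δ : ℤ) : 𝓞 K) ∈ v.asIdeal := by
      push_cast
      exact Ideal.mul_mem_left _ _ hv
    refine ⟨?_, hsplit v h2⟩
    set q := Pool.Agent.H921R2.TatePole.below v with hq
    have h5 : ((q : ℕ) : ℤ) ∣ 2 * W.Δ := by
      have h6 : (((2 * W.Δ).natAbs : ℕ) : 𝓞 K) ∈ v.asIdeal := by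
        rcases Int.natAbs_eq (2 * W.Δ) with h8 | h8
        · rw [h8] at h2
          rw [Int.cast_natCast] at h2
          exact h2
        · rw [h8, Int.cast_neg, neg_mem_iff, Int.cast_natCast] at h2
          exact h2
      rw [Pool.Agent.H82R3.EK.natCast_mem_iff] at h6
      exact Int.natCast_dvd.2 h6
    have hqm : ¬ (q : ℕ) ∣ m := fun h => (hm _ q.2 h) h5
    exact Pool.Agent.Y702.G.val_eq v _ rfl q
      (hunr _ q.2 hqm v ((Pool.Agent.H82R3.EK.natCast_mem_iff v _).2 dvd_rfl))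
  have hTam : Odd (Tam K W) ↔ Odd (Tam ℚ W) :=
    Pool.Agent.R425.G.tam_iff W hΔ.ne' m hm hunr hbelow
  have hminK : ∀ v : HeightOneSpectrum (𝓞 K), MinimalAt W v := by
    intro v
    by_cases hv : ((W.Δ : ℤ) : 𝓞 K) ∈ v.asIdeal
    · obtain ⟨h1, h2⟩ := hbelow v hv
      exact Pool.Agent.Y852.GS.s_mins W K v _ h1 h2 (hmin _)
    · intro C h1 h2 h3 h4 h6
      have e : (base W K).Δ = (W.Δ : K) := by
        rw [WeierstrassCurve.map_Δ]
        simp
      rw [e, Pool.Agent.R425.G.unit_of W v hv]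
      exact Pool.Agent.Y702.Fn.disc_le v _ h1 h2 h3 h4 h6
  -- the lattice
  obtain ⟨Op, Om, hOp, hOm, hlat⟩ := Pool.Agent.R425.P.latP Λ ((W.c₄ : ℝ) / 12)
    ((W.c₆ : ℝ) / 216)
    (by rw [hg₂]; push_cast; rfl) (by rw [hg₃]; push_cast; rfl) (by
      have h1 : (1728 : ℝ) * W.Δ = (W.c₄ : ℝ) ^ 3 - (W.c₆ : ℝ) ^ 2 := by
        exact_mod_cast congrArg (fun x : ℤ => (x : ℝ)) W.c_relation
      have h2 : 0 < (W.Δ : ℝ) := by exact_mod_cast hΔ
      have h3 : ((W.c₄ : ℝ) / 12) ^ 3 - 27 * ((W.c₆ : ℝ) / 216) ^ 2 = (W.Δ : ℝ) := by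
        linear_combination (-1 / 1728 : ℝ) * h1
      rw [h3]
      exact h2)
  have hreal : realPeriod W = 2 * Op := by
    unfold realPeriod
    simp_rw [cubic_eq]
    rw [Pool.Agent.R425.P.s_perrP W Λ Op Om hOp hOm hg₂ hg₃ hlat]
  have hcomp : complexPeriod W = 2 * Op * Om := by
    unfold complexPeriod
    simp_rw [cubic_eq]
    rw [Pool.Agent.R425.P.s_percP W Λ Op Om hOp hOm hg₂ hg₃ hlat]
    ring
  have hOmega : ∀ (F : Type) [Field F] [NumberField F],
      Omega F W = (2 * Op) ^ nrRealPlaces F * (2 * Op * Om) ^ nrComplexPlaces F := by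
    intro F _ _
    unfold Omega
    rw [hreal, hcomp]
  have hOmega0 : ∀ (F : Type) [Field F] [NumberField F], Omega F W ≠ 0 := by
    intro F _ _
    rw [hOmega]
    positivity
  have hOQ : Omega ℚ W = 2 * Op := by
    rw [hOmega, nrRealPlaces_eq_one_of_finrank_eq_one (Module.finrank_self ℚ),
      nrComplexPlaces_eq_zero_of_finrank_eq_one (Module.finrank_self ℚ), pow_one, pow_zero, mul_one]
  -- the periods of the form
  obtain ⟨cc, hcc, hman'⟩ := hman
  have hqN : ¬ q ∣ N := by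
    intro h
    exact hqΔ (((hfI.level q hq).1 h).mul_left 2)
  have hq2 : q ≠ 2 := by
    rintro rfl
    exact hqΔ (Dvd.intro _ rfl)
  obtain ⟨s, t, hPer⟩ := Pool.Agent.R425.P.exists_perP hOp hOm hlat hcc (f := f) (by
    rintro x ⟨γ, rfl⟩
    have h1 := Pool.Agent.Y18.BSD.per_spec f (Additive.toMul γ) UpperHalfPlane.I
    have h2 := hman' _ (Additive.toMul γ).2 UpperHalfPlane.I
    have h3 : prim f ((((Additive.toMul γ : Gamma0 N) : SL(2, ℤ)) • UpperHalfPlane.I : ℍ) : ℂ) -
        prim f (UpperHalfPlane.I : ℂ) = Pool.Agent.Y18.BSD.per f (Additive.toMul γ) := by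
      have h4 : prim f ((((Additive.toMul γ : Gamma0 N) : SL(2, ℤ)) • UpperHalfPlane.I : ℍ) : ℂ) =
          prim f (UpperHalfPlane.I : ℂ) + Pool.Agent.Y18.BSD.per f (Additive.toMul γ) := h1
      rw [h4]
      ring
    rw [h3] at h2
    exact h2) hfI hq hqN hq2 hqo
  have hmodd : Odd m := by
    rw [← Nat.not_even_iff_odd, even_iff_two_dvd]
    intro h
    exact hm 2 Nat.prime_two h (Dvd.intro _ rfl)
  have hcoN : Nat.Coprime m N := by
    rw [Nat.coprime_iff_gcd_eq_one]
    by_contra h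
    obtain ⟨l, hl, hl2⟩ := Nat.exists_prime_and_dvd h
    have h3 := (hfI.level l hl).1 (hl2.trans (Nat.gcd_dvd_right _ _))
    exact (hm l hl (hl2.trans (Nat.gcd_dvd_left _ _))) (Dvd.dvd.mul_left h3 2)
  obtain ⟨H, hHd, hHp, him, D, M', hDo, hMo, hval⟩ := Pool.Agent.R425.P.l_mainP
    Pool.Agent.Y238.G.s_hasp hΔ.ne' hfI hPer hq hqN hq2 hqo m hsq hmodd hcoN M K n hn hsplit
  have hMo' : Odd M' ↔ Odd s ∧ A := hMo.trans (and_congr_right fun _ => hA2.symm)
  -- the value over `ℚ`
  obtain ⟨x₀, hx₀, hx₀d, hx₀n⟩ : ∃ x₀ : ℚ, HasValue ℚ W x₀ ∧ Odd x₀.den ∧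
      (Odd x₀.num ↔ Odd s) := by
    obtain ⟨L₀, hL1, hL2, hL3⟩ := Pool.Agent.R425.G.exists_LQ hfI
    refine value_of W hL1 hL2 (r := (s : ℝ) / t * (2 * Op)) ?_ hPer.t_odd htQ ?_
    · have ht0 : (t : ℂ) ≠ 0 := by
        have h3 := hPer.t_odd
        have h4 : t ≠ 0 := by
          rintro rfl
          exact absurd h3 (by decide)
        exact_mod_cast h4
      have h3 : L₀ 1 = (s : ℂ) / t * (2 * Op) := by
        rw [hL3, div_mul_eq_mul_div, eq_div_iff ht0, mul_comm, hPer.val]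
      rw [h3]
      push_cast
      ring
    · have ht0 : (t : ℝ) ≠ 0 := by
        have h3 := hPer.t_odd
        have h4 : t ≠ 0 := by
          rintro rfl
          exact absurd h3 (by decide)
        exact_mod_cast h4
      rw [hOQ]
      simp only [Rat.numberField_discr, Int.cast_one, abs_one, Real.sqrt_one, mul_one]
      rw [abs_mul, abs_div, abs_of_pos (show (0 : ℝ) < 2 * Op by positivity), ← mul_assoc,
        mul_div_cancel₀ _ (abs_ne_zero.2 ht0)]
  -- the value over `K`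
  obtain ⟨x, hx, hxd, hxn⟩ : ∃ x : ℚ, HasValue K W x ∧ Odd x.den ∧ (Odd x.num ↔ Odd M') := by
    have hre : H 1 = ((H 1).re : ℂ) := Complex.ext rfl (by rw [him]; rfl)
    have hnorm : ‖H 1‖ = |(H 1).re| := by
      rw [hre, Complex.norm_real, Real.norm_eq_abs, Complex.ofReal_re]
    refine value_of W hHd hHp hre hDo htK ?_
    rw [hOmega K, ← hval, hnorm]
  have hxx : Odd x.num ↔ Odd x₀.num ∧ A := by
    rw [hxn, hMo', hx₀n]
  -- the algebraic side
  have halg : (rank K W = 0 ∧ Sha2 K W = {0}) ↔ (rank ℚ W = 0 ∧ Sha2 ℚ W = {0}) ∧ A := by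
    rw [side_iff W hΔ.ne', side_iff W hΔ.ne', hA2]
    exact Pool.Agent.R425.P.alg_iffP W hΔ hnr K n hn hdisc hsplit
  refine ⟨⟨hminK, Pool.Agent.R425.G.cv_fin W hΔ.ne', Pool.Agent.R425.G.cv_fin W hΔ.ne', htK, htQ,
    hTam⟩, ⟨x₀, x, hx₀, hx, hx₀d, hxd, hxx⟩, halg, ?_, ?_, ?_⟩
  · rintro ⟨y, hy, hyd, hyn⟩
    rw [value_uniq W (hOmega0 ℚ) hy hx₀] at hyn
    refine ⟨x, hx, hxd, ?_⟩
    rw [hxx, hyn, hTam]
    constructor
    · rintro ⟨⟨h1, h2, h3⟩, h4⟩
      obtain ⟨h5, h6⟩ := halg.2 ⟨⟨h1, h2⟩, h4⟩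
      exact ⟨h5, h6, h3⟩
    · rintro ⟨h1, h2, h3⟩
      obtain ⟨⟨h4, h5⟩, h6⟩ := halg.1 ⟨h1, h2⟩
      exact ⟨⟨h4, h5, h3⟩, h6⟩
  · rintro hA' ⟨y, hy, hyd, hyn⟩
    rw [value_uniq W (hOmega0 K) hy hx] at hyn
    refine ⟨x₀, hx₀, hx₀d, ?_⟩
    rw [hTam] at hyn
    constructor
    · intro h
      obtain ⟨h1, h2, h3⟩ := hyn.1 (hxx.2 ⟨h, hA'⟩)
      obtain ⟨⟨h4, h5⟩, -⟩ := halg.1 ⟨h1, h2⟩
      exact ⟨h4, h5, h3⟩
    · rintro ⟨h1, h2, h3⟩
      obtain ⟨h4, h5⟩ := halg.2 ⟨⟨h1, h2⟩, hA'⟩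
      exact (hxx.1 (hyn.2 ⟨h4, h5, h3⟩)).1
  · intro hA'
    refine ⟨x, hx, hxd, ?_⟩
    constructor
    · intro h
      exact absurd (hxx.1 h).2 hA'
    · rintro ⟨h1, h2, -⟩
      exact absurd (halg.1 ⟨h1, h2⟩).2 hA'

end Pool.Agent.Results.MP_1a91b9_nt.FormulaModTwoPositive
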