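import Pool.Agent.R425.Main2
import Pool.Agent.R425.Alg
import Pool.Agent.Y702.F.Tam
import Pool.Agent.R425.Tors
import Pool.Agent.Y419.PR.Perr
import Pool.Agent.Y474.PERC
import Pool.Agent.Y125.TamG

/-!
# The Birch and Swinnerton-Dyer formula modulo 2 for `X_0(11)` over abelian 2-extensions

`E` is the modular curve `X_0(11)`, `y² + y = x³ - x² - 10 x - 20`, and `K` is a subfield of degree
`2^n` of the `m`-th cyclotomic field, where `m` is squarefree and prime to `22`.  There is no condition
on the numbers `a_l(E)`.  We prove that the analytic order of the Tate-Shafarevich group,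
`x = L(E/K, 1) √|Δ_K| (#E(K)_tors)² / (Ω Tam)`, is a rational number with odd denominator and that its
numerator is odd if and only if the rank of `E(K)` is zero and the 2-primary part of the
Tate-Shafarevich group is zero, as the conjecture predicts, and this happens if and only if `a_l(E)` is
odd for all primes `l` ramified in `K`.  In particular `L(E/K, 1) ≠ 0` if the rank of `E(K)` is zero and
the 2-primary part of the Tate-Shafarevich group is zero.

The proof.  Analytic side: the product over the characters of `K` of the twisted sums of modular symbols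
is an integer `N`, up to the periods; modulo the prime above 2 of the field of the values of the
characters the sum of a character of conductor `q` is `∏_{l | q} (a_l - 2)`; so `N` is odd if and only
if `a_l` is odd for all `l` that divide one of the conductors, that is, the discriminant of `K`.
Algebraic side: if all these `a_l` are odd, the 2-Selmer group is zero
(`Pool.Agent.Results.MP_e996df_nt.TwoPartX011`).  If `a_l` is even for a prime `l` ramified in `K`, then `l`
has a prime ideal `(ρ)` of degree one in the cubic field `ℚ(π)` of discriminant `-44`; for one of the two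
elements `z = ± (l / ρ) (1 - π)^b` the class of `z` in `H¹(ℚ, E[2])` is locally trivial at all places of
`ℚ` but `l`.  The ramification index of `l` in `K` is even, hence the class becomes locally trivial
also at the places of `K` over `l`; it does not become trivial over `K`.  So the 2-Selmer group of `E`
over `K` is not zero.
-/

set_option autoImplicit false

open NumberField NumberField.InfinitePlace IsDedekindDomain WeierstrassCurve MeasureTheory

namespace Pool.Agent.Results.MP_1a91b9_nt.FormulaModTwoX011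

open scoped Classical

open Pool.Agent.TH841.NF.D (Sha)

/-- The elliptic curve `X_0(11)`, with its global minimal equation
`y² + y = x³ - x² - 10 x - 20`. -/
def E : WeierstrassCurve ℤ := ⟨0, -1, 1, -10, -20⟩

/-- The curve given by the equation of `W` over the ring `R`. -/
abbrev base (W : WeierstrassCurve ℤ) (R : Type) [CommRing R] : WeierstrassCurve R :=
  W.map (Int.castRingHom R)

/-- The number of the affine points `(x, y)` over the ring `R`. -/
noncomputable def pts (W : WeierstrassCurve ℤ) (R : Type) [CommRing R] : ℕ :=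
  Nat.card {P : R × R // (base W R).toAffine.Equation P.1 P.2}

section

variable {K : Type} [Field K] [NumberField K]

/-- `a_v = N v + 1 - #W(k_v)`, the points over the residue field `k_v` counted with the point at
infinity. -/
noncomputable def a (W : WeierstrassCurve ℤ) (v : HeightOneSpectrum (𝓞 K)) : ℤ :=
  (Ideal.absNorm v.asIdeal : ℤ) - pts W (𝓞 K ⧸ v.asIdeal)

/-- The Euler factor of `L(W/K, s)` at `v` : `(1 - a_v N v^(-s) + N v^(1 - 2 s))⁻¹` if the
discriminant is a unit at `v`, and `(1 - a_v N v^(-s))⁻¹` otherwise. -/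
noncomputable def factor (W : WeierstrassCurve ℤ) (s : ℂ) (v : HeightOneSpectrum (𝓞 K)) : ℂ :=
  (1 - (a W v : ℂ) * (Ideal.absNorm v.asIdeal : ℂ) ^ (-s) +
    if ((W.Δ : ℤ) : 𝓞 K) ∈ v.asIdeal then 0 else (Ideal.absNorm v.asIdeal : ℂ) ^ (1 - 2 * s))⁻¹

/-- The equation is minimal at the finite place `v` of `K`: no change of variables over `K` that
keeps the coefficients integral at `v` decreases the valuation of the discriminant. -/
def MinimalAt (W : WeierstrassCurve ℤ) (v : HeightOneSpectrum (𝓞 K)) : Prop :=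
  ∀ C : VariableChange K, v.valuation K (C • base W K).a₁ ≤ 1 →
    v.valuation K (C • base W K).a₂ ≤ 1 → v.valuation K (C • base W K).a₃ ≤ 1 →
    v.valuation K (C • base W K).a₄ ≤ 1 → v.valuation K (C • base W K).a₆ ≤ 1 →
    v.valuation K (C • base W K).Δ ≤ v.valuation K (base W K).Δ

/-- `E⁰(K_v)`, the group of the points of `W` over the completion `K_v` with nonsingular reduction:
the points `(x, y)` where `x` is not integral, or one of the partial derivatives of
`y² + a₁ x y + a₃ y - x³ - a₂ x² - a₄ x - a₆` is a unit at `(x, y)`, and the point at infinity. -/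
noncomputable def nonsing (W : WeierstrassCurve ℤ) (v : HeightOneSpectrum (𝓞 K)) :
    AddSubgroup (base W (v.adicCompletion K)).toAffine.Point :=
  AddSubgroup.closure {P | ∀ x y h, P = Affine.Point.some x y h →
    1 < Valued.v x ∨ Valued.v (W.a₁ * y - (3 * x ^ 2 + 2 * W.a₂ * x + W.a₄)) = 1 ∨
      Valued.v (2 * y + W.a₁ * x + W.a₃) = 1}

/-- The Tamagawa number `c_v = [E(K_v) : E⁰(K_v)]` of a minimal equation. -/
noncomputable def c (W : WeierstrassCurve ℤ) (v : HeightOneSpectrum (𝓞 K)) : ℕ :=
  (nonsing W v).index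

end

section

variable (K : Type) [Field K] [NumberField K]

/-- The product of the Tamagawa numbers. -/
noncomputable def Tam (W : WeierstrassCurve ℤ) : ℕ := ∏ᶠ v : HeightOneSpectrum (𝓞 K), c W v

/-- The 2-primary part of the Tate-Shafarevich group over `K`. -/
def Sha2 (W : WeierstrassCurve ℤ) : Set (Sha (base W K)) := {x | ∃ n : ℕ, 2 ^ n • x = 0}

/-- The torsion subgroup of the group of the points over `K`. -/
def tors (W : WeierstrassCurve ℤ) : Set (base W K).toAffine.Point := {P | ∃ n : ℕ, 0 < n ∧ n • P = 0}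

/-- The rank of the group of the points over `K`. -/
noncomputable def rank (W : WeierstrassCurve ℤ) : ℕ := Module.finrank ℤ (base W K).toAffine.Point

end

/-- `4 x³ + b₂ x² + 2 b₄ x + b₆ = (2 y + a₁ x + a₃)²`, where `b₂ = a₁² + 4 a₂`,
`b₄ = 2 a₄ + a₁ a₃`, `b₆ = a₃² + 4 a₆`. -/
def cubic (W : WeierstrassCurve ℤ) {R : Type} [CommRing R] (x : R) : R :=
  4 * x ^ 3 + W.b₂ * x ^ 2 + 2 * W.b₄ * x + W.b₆

/-- `∫_{W(ℝ)} |ω|` with `ω = dx / (2 y + a₁ x + a₃)`, as an integral over `x`: two real points lie
over each `x` with `cubic x > 0`. -/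
noncomputable def realPeriod (W : WeierstrassCurve ℤ) : ℝ :=
  2 * ∫ x in {x : ℝ | 0 < cubic W x}, 1 / √(cubic W x)

/-- `2 ∫_{W(ℂ)} |ω ∧ ω̄|`, where `|ω ∧ ω̄| = du dv` in a local parameter `z = u + i v` with
`dz = ω`, as an integral over `x`: two points lie over a general `x`, and `|ω ∧ ω̄|` is the area
element of the plane of `x` divided by `|cubic x|`. -/
noncomputable def complexPeriod (W : WeierstrassCurve ℤ) : ℝ := 2 * (2 * ∫ x : ℂ, 1 / ‖cubic W x‖)

/-- The global period of an equation that is minimal at all finite places. -/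
noncomputable def Omega (K : Type) [Field K] [NumberField K] (W : WeierstrassCurve ℤ) : ℝ :=
  realPeriod W ^ nrRealPlaces K * complexPeriod W ^ nrComplexPlaces K

section proof

open Pool.Agent.Y702

lemma pts_eq (R : Type) [CommRing R] : pts E R = L.npt R := by
  unfold pts L.npt
  refine Nat.card_congr (Equiv.subtypeEquivRight fun x => ?_)
  rw [WeierstrassCurve.Affine.equation_iff]
  unfold base E
  simp only [WeierstrassCurve.map, eq_intCast]
  push_cast
  constructor
  · intro h
    linear_combination h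
  · intro h
    linear_combination h

lemma disc_mem {K : Type} [Field K] [NumberField K] (v : HeightOneSpectrum (𝓞 K)) :
    ((E.Δ : ℤ) : 𝓞 K) ∈ v.asIdeal ↔ (11 : 𝓞 K) ∈ v.asIdeal := by
  have h : E.Δ = -161051 := P.s_min11.2.2.1
  have h2 : ((E.Δ : ℤ) : 𝓞 K) = -((11 : 𝓞 K) ^ 5) := by
    rw [h]; push_cast; norm_num
  rw [h2, neg_mem_iff]
  exact ⟨fun h => v.isPrime.mem_of_pow_mem 5 h, fun h => Ideal.pow_mem_of_mem _ h 5 (by norm_num)⟩

lemma factor_eq {K : Type} [Field K] [NumberField K] (s : ℂ) :
    factor (K := K) E s = L.fE (K := K) s := by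
  funext v
  have h1 : a E v = L.av v := by
    unfold a L.av
    rw [pts_eq]
  unfold factor L.fE
  rw [h1]
  simp only [disc_mem]

lemma cubic_eq {R : Type} [CommRing R] (x : R) :
    cubic E x = 4 * x ^ 3 - 4 * x ^ 2 - 40 * x - 79 := by
  unfold cubic E WeierstrassCurve.b₂ WeierstrassCurve.b₄ WeierstrassCurve.b₆
  push_cast
  ring

lemma c_eq {K : Type} [Field K] [NumberField K] (v : HeightOneSpectrum (𝓞 K)) :
    c E v = Fn.tam v := rfl

end proof

section alg

variable {K : Type} [Field K] [NumberField K]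

open Pool.Agent.Y809.BS (tr tr_inj tr_surj tr_add isEW' mw)
open Pool.Agent.TH115.GD (Pt)
open Pool.Agent.Y702 (W2)

lemma sha_iff : (∀ s : Sha (base E K), 2 • s = 0 → s = 0) ↔ Sha2 K E = {0} := by
  constructor
  · intro h
    have key : ∀ (j : ℕ) (x : Sha (base E K)), 2 ^ j • x = 0 → x = 0 := by
      intro j
      induction j with
      | zero => intro x hx; rw [pow_zero, one_nsmul] at hx; exact hx
      | succ j ih =>
        intro x hx
        rw [pow_succ, mul_nsmul] at hx
        exact ih x (h _ hx)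
    ext x
    constructor
    · rintro ⟨k, hk⟩
      exact key k x hk
    · rintro rfl
      exact ⟨0, nsmul_zero _⟩
  · intro h s hs
    have h1 : s ∈ Sha2 K E := ⟨1, by rw [pow_one]; exact hs⟩
    rw [h] at h1
    exact h1

/-- the isomorphism with the points of the short equation -/
noncomputable def iso (K : Type) [Field K] [NumberField K] :
    (base E K).toAffine.Point ≃+ Pt W2 K :=
  AddEquiv.ofBijective
    ({ toFun := tr (isEW' K)
       map_zero' := rfl
       map_add' := fun P Q => @tr_add K _ _ _ (isEW' K) (Classical.decEq K) P Q } :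
      (base E K).toAffine.Point →+ Pt W2 K)
    ⟨fun _ _ h => tr_inj (isEW' K) h, fun Q => tr_surj (isEW' K) Q⟩

lemma fg_pts : AddGroup.FG (base E K).toAffine.Point := by
  have h1 : AddGroup.FG (Pt W2 K) := mw K
  exact AddGroup.fg_of_surjective (f := ((iso K).symm : Pt W2 K →+ _)) (iso K).symm.surjective

lemma rank_iff : rank K E = 0 ↔ Finite (base E K).toAffine.Point := by
  constructor
  · intro h
    exact Pool.Agent.R425.fin_of_rank fg_pts h
  · intro h
    unfold rank
    apply Module.IsTorsion.finrank_eq_zero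
    intro P
    refine ⟨⟨(Nat.card (base E K).toAffine.Point : ℤ), ?_⟩, ?_⟩
    · rw [mem_nonZeroDivisors_iff_ne_zero]
      exact_mod_cast Nat.card_pos.ne'
    · show (Nat.card (base E K).toAffine.Point : ℤ) • P = 0
      rw [natCast_zsmul]
      exact card_nsmul_eq_zero'

lemma tors_odd (hnr : ∀ x : K, Pool.Agent.TH115.GD.cub W2 x ≠ 0) : Odd (Nat.card (tors K E)) := by
  refine Pool.Agent.R425.tors_odd fg_pts fun P hP => ?_
  apply (iso K).injective
  rw [map_zero]
  exact Pool.Agent.R425.two_tors hnr _ (by rw [← map_add, hP, map_zero])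

end alg

/-- **Main theorem.** Let `m` be squarefree and prime to `22`, and let `K` be a subfield of degree
`2^n` of the `m`-th cyclotomic field `M`.  The equation of `E = X_0(11)` is minimal at all finite places
of `K`, and almost all the Tamagawa numbers are `1`.  The `L`-function of `E` over `K` is entire.  The
number `x = L(E/K, 1) √|Δ_K| (#E(K)_tors)² / (Ω Tam)` is rational with odd denominator, and its
numerator is odd if and only if the rank of `E(K)` is zero and the 2-primary part of the
Tate-Shafarevich group is zero; it is odd if and only if `a_l(E)` is odd for all the primes `l` that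
divide the discriminant of `K`. -/
theorem result (m : ℕ) [NeZero m] (hsq : Squarefree m) (hco : m.Coprime 22)
    (M : Type) [Field M] [NumberField M] [IsCyclotomicExtension {m} ℚ M]
    (K : IntermediateField ℚ M) (n : ℕ) (hn : Module.finrank ℚ K = 2 ^ n) :
    (∀ v : HeightOneSpectrum (𝓞 K), MinimalAt E v) ∧
    {v : HeightOneSpectrum (𝓞 K) | c E v ≠ 1}.Finite ∧
    ∃ L : ℂ → ℂ, Differentiable ℂ L ∧
      (∀ s : ℂ, 3 / 2 < s.re → HasProd (factor (K := K) E s) (L s)) ∧
      ∃ x : ℚ, L 1 * √|(discr K : ℝ)| * (Nat.card (tors K E) : ℂ) ^ 2 =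
          x * Omega K E * Tam K E ∧ Odd x.den ∧
        (Odd x.num ↔ rank K E = 0 ∧ Sha2 K E = {0}) ∧
        (Odd x.num ↔ ∀ l : ℕ, l.Prime → (l : ℤ) ∣ discr K → Odd ((l : ℤ) - pts E (ZMod l))) := by
  have htamg := Pool.Agent.Y125.s_tamg
  have hperc := Pool.Agent.Y474.PERC.s_perc
  have hgal : IsGalois ℚ K := Pool.Agent.Y702.L.gal_F m M K
  have hnr := Pool.Agent.Y809.BS.no_root K n hn
  have hap : ∀ l : ℕ, Pool.Agent.W97.MT.ap Pool.Agent.Y702.E11 l = (l : ℤ) - pts E (ZMod l) := by
    intro l
    rw [pts_eq, ← Pool.Agent.Y702.L.affCount_eq]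
    rfl
  have halg := Pool.Agent.R425.alg_main m hco M K n hn
  have h11 : ∀ v : HeightOneSpectrum (𝓞 K), ((11 : ℕ) : 𝓞 K) ∈ v.asIdeal →
      v.valuation K ((11 : ℕ) : K) = WithZero.exp (-1 : ℤ) := fun v hv =>
    Pool.Agent.Y702.Fn.unr m M K (by norm_num) (fun h => by
      have h1 : 11 ∣ Nat.gcd m 22 := Nat.dvd_gcd h (by norm_num)
      rw [hco] at h1
      norm_num at h1) v hv
  have hcodd : ∀ v : HeightOneSpectrum (𝓞 K), Odd (c E v) := fun v =>
    Pool.Agent.Y702.Fn.tam_odd htamg h11 v
  have hTam : Odd (Tam K E) :=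
    finprod_induction (fun x => Odd x) odd_one (fun _ _ => Odd.mul) hcodd
  have htors : Odd (Nat.card (tors K E)) := tors_odd hnr
  obtain ⟨P, Op, Om, cc, hOp, hOm, g2, g3, hP, hc, hC, hPer⟩ := Pool.Agent.Y702.M.main
  obtain ⟨G, hGd, hGp, him, N, hN, hval⟩ := Pool.Agent.R425.l_main' hOp hOm hc hC hPer hP m hsq
    hco M K n hn
  have hreal : realPeriod E = 2 * Op := by
    unfold realPeriod
    simp_rw [cubic_eq]
    rw [Pool.Agent.Y419.PR.s_perr P Op Om hOp hOm g2 g3 hP]
  have hcomp : complexPeriod E = 4 * Op * Om := by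
    unfold complexPeriod
    simp_rw [cubic_eq]
    rw [hperc P Op Om hOp hOm g2 g3 hP]
    ring
  have hOmega : Omega K E = (2 * Op) ^ nrRealPlaces K * (4 * Op * Om) ^ nrComplexPlaces K := by
    unfold Omega
    rw [hreal, hcomp]
  have hre : G 1 = ((G 1).re : ℂ) := Complex.ext rfl (by rw [him]; rfl)
  have hnorm : ‖G 1‖ = |(G 1).re| := by
    rw [hre, Complex.norm_real, Real.norm_eq_abs, Complex.ofReal_re]
  obtain ⟨ε, hε, hεr⟩ : ∃ ε : ℤ, (ε = 1 ∨ ε = -1) ∧ (G 1).re = ε * |(G 1).re| := by
    rcases le_total 0 (G 1).re with h | h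
    · exact ⟨1, Or.inl rfl, by rw [abs_of_nonneg h]; push_cast; ring⟩
    · exact ⟨-1, Or.inr rfl, by rw [abs_of_nonpos h]; push_cast; ring⟩
  set t : ℕ := Nat.card (tors K E) with ht
  set T : ℕ := Tam K E with hT
  have hT0 : (T : ℂ) ≠ 0 := by exact_mod_cast hTam.pos.ne'
  set a : ℤ := ε * |N| * (t : ℤ) ^ 2 with ha
  set b : ℤ := 5 * (T : ℤ) with hb
  have hb0 : b ≠ 0 := by
    have : (T : ℤ) ≠ 0 := by exact_mod_cast hTam.pos.ne'
    rw [hb]
    exact mul_ne_zero (by norm_num) this
  have hbodd : Odd b := by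
    rw [hb]
    exact Odd.mul (by decide) (by exact_mod_cast hTam)
  have haodd : Odd a ↔ Odd N := by
    have h1 : Odd ε := by rcases hε with rfl | rfl <;> decide
    have h2 : Odd ((t : ℤ) ^ 2) := Odd.pow (by exact_mod_cast htors)
    rw [ha, Int.odd_mul, Int.odd_mul]
    constructor
    · rintro ⟨⟨-, h⟩, -⟩
      rwa [← Int.natAbs_odd, Int.natAbs_abs, Int.natAbs_odd] at h
    · intro h
      refine ⟨⟨h1, ?_⟩, h2⟩
      rwa [← Int.natAbs_odd, Int.natAbs_abs, Int.natAbs_odd]
  set x : ℚ := (a : ℚ) / b with hx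
  have hxeq : x.num * b = a * x.den := by
    have h1 : (x.num : ℚ) / x.den = (a : ℚ) / b := by rw [Rat.num_div_den, hx]
    have h2 : (x.den : ℚ) ≠ 0 := by exact_mod_cast x.den_nz
    have h3 : (b : ℚ) ≠ 0 := by exact_mod_cast hb0
    rw [div_eq_div_iff h2 h3] at h1
    exact_mod_cast h1
  have hden : Odd x.den := by
    have h1 : (x.den : ℤ) ∣ b := by
      have h2 : (x.den : ℤ) ∣ x.num * b := ⟨a, by rw [hxeq]; ring⟩
      have h3 : IsCoprime (x.den : ℤ) x.num := by
        rw [Int.isCoprime_iff_gcd_eq_one, Int.gcd_comm]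
        exact x.reduced
      exact h3.dvd_of_dvd_mul_left h2
    obtain ⟨k, hk⟩ := h1
    rw [hk, Int.odd_mul] at hbodd
    exact_mod_cast hbodd.1
  have hnum : Odd x.num ↔ Odd N := by
    rw [← haodd]
    have hden' : Odd (x.den : ℤ) := by exact_mod_cast hden
    constructor
    · intro h
      have h1 : Odd (a * x.den) := by rw [← hxeq]; exact h.mul hbodd
      exact (Int.odd_mul.1 h1).1
    · intro h
      have h1 : Odd (x.num * b) := by rw [hxeq]; exact h.mul hden'
      exact (Int.odd_mul.1 h1).1
  have hNap : Odd N ↔ ∀ l : ℕ, l.Prime → (l : ℤ) ∣ discr K → Odd ((l : ℤ) - pts E (ZMod l)) := by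
    rw [hN]
    exact ⟨fun h l hl hd => by rw [← hap]; exact h l hl hd,
      fun h l hl hd => by rw [hap]; exact h l hl hd⟩
  have hNalg : Odd N ↔ rank K E = 0 ∧ Sha2 K E = {0} := by
    rw [hN, halg, rank_iff, ← sha_iff]
    exact Iff.rfl
  refine ⟨fun v C h1 h2 h3 h4 h6 => ?_, ?_, G, hGd, ?_, x, ?_, hden, hnum.trans hNalg,
    hnum.trans hNap⟩
  · exact Pool.Agent.Y702.Fn.minimal v C (Pool.Agent.Y702.Fn.c4_le v _ h1 h2 h3 h4 h6)
      (Pool.Agent.Y702.Fn.disc_le v _ h1 h2 h3 h4 h6)
  · refine (W165.CE.finite_bad (K := K) 11 (by norm_num)).subset ?_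
    intro v hv
    by_contra hcon
    apply hv
    show Pool.Agent.Y702.Fn.tam v = 1
    apply Pool.Agent.Y702.Fn.tam_one htamg v
    intro h
    apply hcon
    have h1 := (Pool.Agent.H82R3.EK.natCast_mem_iff v 11).1 h
    show ((Pool.Agent.H921R2.TatePole.below v : ℕ) : ℤ) ∣ 11
    exact_mod_cast h1
  · intro s hs
    rw [factor_eq]
    exact hGp s hs
  · rw [hnorm, ← hOmega] at hval
    have h2 : ((|(G 1).re| : ℝ) : ℂ) * (√|(discr K : ℝ)| : ℝ) =
        ((|(N : ℝ)| / 5 * Omega K E : ℝ) : ℂ) := by
      rw [← Complex.ofReal_mul, hval]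
    have h5 : (x : ℂ) = (ε : ℂ) * |(N : ℝ)| * (t : ℂ) ^ 2 / (5 * T) := by
      rw [hx, ha, hb]
      have h7 : (((|(N : ℚ)| : ℚ) : ℂ)) = ((|(N : ℝ)| : ℝ) : ℂ) := by
        rw [← Complex.ofReal_ratCast]
        push_cast
        rfl
      push_cast
      rw [h7]
    have h6 : ((G 1).re : ℂ) = (ε : ℂ) * ((|(G 1).re| : ℝ) : ℂ) := by
      conv_lhs => rw [hεr]
      push_cast
      rfl
    rw [hre, h6, h5]
    push_cast at h2 ⊢
    field_simp
    linear_combination 5 * (ε : ℂ) * (t : ℂ) ^ 2 * h2

end Pool.Agent.Results.MP_1a91b9_nt.FormulaModTwoX011
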