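import Pool.Agent.R425.T.Tow
import Pool.Agent.R901.EC.X11
import Pool.Agent.Y18.LP.Main

/-!
# Ranks and 2-primary Tate-Shafarevich groups over infinite abelian 2-extensions, for elliptic curves
# with discriminants of either sign

`E_1, …, E_m` are elliptic curves over `ℚ`, given with their newforms, with trivial 2-Selmer group over
`ℚ` and with `L(E_i, 1) ≠ 0`; the discriminants may be positive or negative.  A prime `q` is admissible
if `q ∤ 6Δ_i` and the number of the points of `E_i` over `ℤ/q` is odd for all `i`.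

Theorem: let `H` be an infinite group of Dirichlet characters of order dividing `2 ^ n` and of squarefree
conductors composed of admissible primes.  Then `H` has an infinite subgroup `H'` such that for all
number fields `F` contained in the infinite abelian extension of `ℚ` attached to `H'` and all `i` the
Hasse-Weil `L`-function `L(E_i/F, s)` is entire, its order of vanishing at `s = 1` is the rank of
`E_i(F)`, both are `0`, and `Ш(E_i/F)[2^∞] = 0`.

The proof.  The even characters in `H` with `χ(p) = 1` for the primes `p` dividing `2 Δ_i` for some `i`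
form a subgroup `H_1` of finite index.  By the starting result `InfiniteAbelianTowers` of problem
`MP_6dc9d1_nt` (files `Y18/LP`) it has an infinite subgroup `H'` such that `L(E_i/F, s)` does not vanish
at `s = 1` for the fields `F` contained in the abelian extension attached to `H'`.  On the
algebraic side every such `F` is a totally real abelian extension of `ℚ` of degree `2 ^ j` which is
ramified at admissible primes only and in which the primes dividing `2 Δ_i` split completely.  A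
nonzero element of `Sel_2(E_i/F)` gives a nonzero class over `ℚ` which is locally trivial at the bad
primes and unramified outside; for `Δ_i < 0` it is in `Sel_2(E_i/ℚ) = 0` as there is no condition at the
real place; for `Δ_i > 0` it is locally trivial at the real place as `F` is totally real
(files `R425/P`).
-/

set_option autoImplicit false

open Complex UpperHalfPlane MatrixGroups CongruenceSubgroup NumberField IsDedekindDomain

namespace Pool.Agent.Results.MP_1a91b9_nt.InfiniteTowersWithSha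

/-- `N_p`: the number of pairs `(x, y) ∈ (ℤ/p)²` with `y² = x³ + a x + b`. -/
noncomputable def pointCount (a b : ℤ) (p : ℕ) : ℕ :=
  Nat.card {q : ZMod p × ZMod p // q.2 ^ 2 = q.1 ^ 3 + (a : ZMod p) * q.1 + (b : ZMod p)}

/-- `p` is a prime not dividing `2 Δ`, `Δ = -4 a³ - 27 b²`. -/
def GoodPrime (a b : ℤ) (p : ℕ) : Prop :=
  p.Prime ∧ ¬ ((p : ℤ) ∣ 2 * (-4 * a ^ 3 - 27 * b ^ 2))

open Classical in
/-- `L(E, 1) ≠ 0` for `E : y² = x³ + a x + b`: there is an entire function `F` which for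
`Re s > 3/2` is the incomplete L-series `∏_{p ∤ 2Δ} (1 - a_p p^{-s} + p^{1-2s})⁻¹`, `a_p = p - N_p`,
of `E` over `ℚ`, and `F(1) ≠ 0`. -/
def AnalyticRankZero (a b : ℤ) : Prop :=
  ∃ F : ℂ → ℂ, (Differentiable ℂ F ∧ ∀ s : ℂ, (3 : ℝ) / 2 < s.re →
    HasProd (fun p : ℕ => if GoodPrime a b p then
      (1 - ((p : ℂ) - (pointCount a b p : ℂ)) * (p : ℂ) ^ (-s) + (p : ℂ) ^ (1 - 2 * s))⁻¹ else 1)
      (F s)) ∧ F 1 ≠ 0

/-- `q` is a prime, `q ∤ 2 Δ`, and the number `N_q + 1` of the points of `E : y² = x³ + a x + b` over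
`ℤ/q` (with the point at infinity) is odd. -/
def Admissible (a b : ℤ) (q : ℕ) : Prop := GoodPrime a b q ∧ ¬ 2 ∣ pointCount a b q + 1

/-- The families `c = (c_q)` of characters `c_q` of the groups `(ℤ/q)ˣ`.  The family with `c_q = 1`
except for the primes `q` of a finite set stands for the Dirichlet character `χ_c = ∏ c_q` of
squarefree conductor; this is an isomorphism of groups. -/
abbrev Fam : Type := (q : ℕ) → (ZMod q)ˣ →* ℂˣ

open Classical in
/-- The set of the `q` with `c_q ≠ 1` (if it is finite). -/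
noncomputable def supp (c : Fam) : Finset ℕ :=
  if h : {q | c q ≠ 1}.Finite then h.toFinset else ∅

/-- The conductor of `χ_c`. -/
noncomputable def conductor (c : Fam) : ℕ := ∏ q ∈ supp c, q

/-- The value `χ_c(m)`. -/
noncomputable def value (c : Fam) (m : ℕ) : ℂ :=
  ∏ q ∈ supp c, if h : m.Coprime q then (c q (ZMod.unitOfCoprime m h) : ℂ) else 0

open Classical in
/-- The Gaussian period `∑ exp(2 π i u / M)`, `0 ≤ u < M`, `χ_c(u) = 1`, where `M` is the conductor of
`χ_c`.  It generates the cyclic extension of `ℚ` attached to `χ_c` (the subfield of `ℚ(exp(2 π i / M))`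
fixed by the kernel of `χ_c`; recall that `M` is squarefree). -/
noncomputable def period (c : Fam) : ℂ :=
  ∑ u ∈ (Finset.range (conductor c)).filter (fun u => value c u = 1),
    Complex.exp (2 * Real.pi * Complex.I / (conductor c : ℕ)) ^ u

/-- `H` is a group of Dirichlet characters of order dividing `2 ^ n` and of squarefree conductors
composed of primes admissible for all the curves. -/
structure IsCharGroup {m : ℕ} (a b : Fin m → ℤ) (n : ℕ) (H : Subgroup Fam) : Prop where
  pow : ∀ c ∈ H, c ^ (2 ^ n) = 1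
  finite : ∀ c ∈ H, {q | c q ≠ 1}.Finite
  admissible : ∀ c ∈ H, ∀ q, c q ≠ 1 → q.Prime ∧ ∀ i, Admissible (a i) (b i) q

/-- The `n`-th Fourier coefficient of `f`. -/
noncomputable def coef {N : ℕ} (f : CuspForm (Gamma0 N : Subgroup (GL (Fin 2) ℝ)) 2) (n : ℕ) : ℂ :=
  (qExpansion 1 f).coeff n

/-- `f ∈ S_2(Γ₀(N))` is the newform of the elliptic curve `E : y² = x³ + a x + b`, with its standard
properties: the Fourier coefficients `c(n)` of `f` are real with `c(1) = 1`, they satisfy the Hecke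
relations `c(mn) = c(m) c(n)` for coprime `m`, `n` and `c(p^(j+2)) = c(p) c(p^(j+1)) - p c(p^j)`
(without the last term if `p ∣ N`) and the bounds `|c(p)| ≤ 2√p` for `p ∤ N`, `|c(p)| ≤ 1` for
`p ∣ N`; `f` is an eigenfunction of the Fricke involution: `f(-1/(Nτ)) = -w N τ² f(τ)` with `w = ±1`;
for all primes `p ∤ 2Δ` one has `p ∤ N` and `c(p) = a_p(E)`.  (Every elliptic curve over `ℚ` has such a
form by the modularity theorem.) -/
structure IsFormOf (a b : ℤ) (N : ℕ) (f : CuspForm (Gamma0 N : Subgroup (GL (Fin 2) ℝ)) 2) :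
    Prop where
  one : coef f 1 = 1
  real : ∀ n, (coef f n).im = 0
  mul : ∀ m n : ℕ, Nat.Coprime m n → coef f (m * n) = coef f m * coef f n
  pow : ∀ p j : ℕ, p.Prime → coef f (p ^ (j + 2)) = coef f p * coef f (p ^ (j + 1)) -
      (if p ∣ N then 0 else (p : ℂ) * coef f (p ^ j))
  good : ∀ p : ℕ, p.Prime → ¬ p ∣ N → ‖coef f p‖ ≤ 2 * Real.sqrt p
  bad : ∀ p : ℕ, p.Prime → p ∣ N → ‖coef f p‖ ≤ 1
  fricke : ∃ w : ℝ, (w = 1 ∨ w = -1) ∧ ∀ τ τ' : ℍ, (τ' : ℂ) * ((N : ℂ) * (τ : ℂ)) = -1 →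
    f τ' = -(w : ℂ) * (N : ℂ) * (τ : ℂ) ^ 2 * f τ
  points : ∀ p : ℕ, GoodPrime a b p → ¬ p ∣ N ∧ coef f p = (p : ℂ) - (pointCount a b p : ℂ)

/-- `pw t u n = α ^ n + β ^ n`, where `α`, `β` are the roots of `X² - t X + u`. -/
noncomputable def pw (t u : ℂ) : ℕ → ℂ
  | 0 => 2
  | 1 => t
  | n + 2 => t * pw t u (n + 1) - u * pw t u n

section
variable {F : Type} [Field F] [NumberField F]

/-- The number `a_v` of `E : y² = x³ + a x + b` at a finite place `v` of `F`: `Nv` minus the number of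
affine solutions `(x, y)` of the equation over the residue field `𝓞 F / v`. -/
noncomputable def av (a b : ℤ) (v : HeightOneSpectrum (𝓞 F)) : ℤ :=
  ((Ideal.absNorm v.asIdeal : ℕ) : ℤ) -
    ((Nat.card {x : (𝓞 F ⧸ v.asIdeal) × (𝓞 F ⧸ v.asIdeal) //
      x.2 ^ 2 = x.1 ^ 3 + (a : 𝓞 F ⧸ v.asIdeal) * x.1 + (b : 𝓞 F ⧸ v.asIdeal)} : ℕ) : ℤ)

open Classical in
/-- The Euler factor of `L(E/F, s)` at the finite place `v` of `F`.  If `v ∤ 2 Δ`, it is
`(1 - a_v (Nv)^(-s) + (Nv)^(1-2s))⁻¹`.  If `v ∣ 2 Δ` and `Nv = p ^ d` with `p` prime, it is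
`(1 - (α^d + β^d) (Nv)^(-s) + (Nv)^(1-2s))⁻¹` for `p ∤ N`, where `α`, `β` are the roots of
`X² - c(p) X + p`, and `(1 - c(p)^d (Nv)^(-s))⁻¹` for `p ∣ N`.  (The primes `p ∣ 2 Δ` will be
unramified in `F`, so that this is the Hasse-Weil factor.) -/
noncomputable def factor (a b : ℤ) {N : ℕ} (f : CuspForm (Gamma0 N : Subgroup (GL (Fin 2) ℝ)) 2)
    (s : ℂ) (v : HeightOneSpectrum (𝓞 F)) : ℂ :=
  if ((2 * (4 * a ^ 3 + 27 * b ^ 2) : ℤ) : 𝓞 F) ∈ v.asIdeal then
    (1 - pw (coef f (Ideal.absNorm v.asIdeal).minFac)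
          (if (Ideal.absNorm v.asIdeal).minFac ∣ N then 0 else ((Ideal.absNorm v.asIdeal).minFac : ℂ))
          ((Ideal.absNorm v.asIdeal).factorization (Ideal.absNorm v.asIdeal).minFac)
          * ((Ideal.absNorm v.asIdeal : ℕ) : ℂ) ^ (-s)
      + (if (Ideal.absNorm v.asIdeal).minFac ∣ N then (0 : ℂ) else
          ((Ideal.absNorm v.asIdeal : ℕ) : ℂ) ^ (1 - 2 * s)))⁻¹
  else
    (1 - ((av a b v : ℤ) : ℂ) * ((Ideal.absNorm v.asIdeal : ℕ) : ℂ) ^ (-s)
      + ((Ideal.absNorm v.asIdeal : ℕ) : ℂ) ^ (1 - 2 * s))⁻¹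

end

/-- The group `E(F)` for `E : y² = x³ + a x + b`. -/
abbrev Points (F : Type) [Field F] (a b : ℤ) : Type :=
  (({ a₁ := 0, a₂ := 0, a₃ := 0, a₄ := (a : F), a₆ := (b : F) } : WeierstrassCurve F).toAffine).Point

open Classical in
/-- The rank conjecture holds for `E : y² = x³ + a x + b` (with newform `f`) over the number field
`F ⊂ ℂ`, and both sides are `0`: there is an entire function `G` which for `Re s > 3/2` is the
Euler product of `E` over all finite places of `F`, the order of vanishing of `G` at `s = 1` is the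
rank of `E(F)`, and the rank is `0`. -/
def BSDRankZeroOver (F : IntermediateField ℚ ℂ) [NumberField F] (a b : ℤ) {N : ℕ}
    (f : CuspForm (Gamma0 N : Subgroup (GL (Fin 2) ℝ)) 2) : Prop :=
  ∃ G : ℂ → ℂ, Differentiable ℂ G ∧
    (∀ s : ℂ, 3 / 2 < s.re → HasProd (fun v : HeightOneSpectrum (𝓞 F) => factor a b f s v) (G s)) ∧
    analyticOrderAt G 1 = ((Module.finrank ℤ (Points F a b) : ℕ) : ℕ∞) ∧
    Module.finrank ℤ (Points F a b) = 0

/-- The coefficient `a = -27 c₄` of the short Weierstrass equation `y² = x³ + a x + b` of `W`. -/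
def ca (W : WeierstrassCurve ℤ) : ℤ := -27 * W.c₄

/-- The coefficient `b = -54 c₆` of the short Weierstrass equation `y² = x³ + a x + b` of `W`. -/
def cb (W : WeierstrassCurve ℤ) : ℤ := -54 * W.c₆

/-- The 2-Selmer group of `W` over `ℚ` is trivial: `W(ℚ)` is finite of odd order and `Ш(W/ℚ)` has no
element of order two. -/
def TrivialTwoSelmer (W : WeierstrassCurve ℤ) : Prop :=
  Finite (W.map (Int.castRingHom ℚ)).toAffine.Point ∧
  Odd (Nat.card (W.map (Int.castRingHom ℚ)).toAffine.Point) ∧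
  ∀ s : Pool.Agent.TH841.NF.D.Sha (W.map (Int.castRingHom ℚ)), 2 • s = 0 → s = 0

/-- The 2-primary part of the Tate-Shafarevich group of `W` over `F`. -/
def Sha2 (F : Type) [Field F] [NumberField F] (W : WeierstrassCurve ℤ) :
    Set (Pool.Agent.TH841.NF.D.Sha (W.map (Int.castRingHom F))) := {x | ∃ n : ℕ, 2 ^ n • x = 0}

/-- The curve `X_0(11) : y² + y = x³ - x² - 10 x - 20`. -/
def X11 : WeierstrassCurve ℤ := ⟨0, -1, 1, -10, -20⟩

theorem pw_eq (t u : ℂ) : ∀ n : ℕ, pw t u n = W165.CE.pw t u n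
  | 0 => rfl
  | 1 => rfl
  | n + 2 => by rw [pw, W165.CE.pw, pw_eq t u (n + 1), pw_eq t u n]

theorem factor_eq {F : Type} [Field F] [NumberField F] (a b : ℤ) {N : ℕ}
    (f : CuspForm (Gamma0 N : Subgroup (GL (Fin 2) ℝ)) 2) (s : ℂ) (v : HeightOneSpectrum (𝓞 F)) :
    factor a b f s v = W165.CE.fac a b N (Pool.Agent.Y18.BSD.co f) s v := by
  unfold factor W165.CE.fac
  rw [pw_eq]
  rfl

theorem bsd_of {F : IntermediateField ℚ ℂ} [NumberField F] {a b : ℤ} {N : ℕ}
    {f : CuspForm (Gamma0 N : Subgroup (GL (Fin 2) ℝ)) 2} (h : Pool.Agent.Y18.NF.RZ F a b f)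
    (hfin : Finite (Points F a b)) : BSDRankZeroOver F a b f := by
  classical
  obtain ⟨G, h1, h2, h3⟩ := h
  have h0 : Module.finrank ℤ (Points F a b) = 0 := by
    apply Module.IsTorsion.finrank_eq_zero
    intro P
    refine ⟨⟨(Nat.card (Points F a b) : ℤ), ?_⟩, ?_⟩
    · rw [mem_nonZeroDivisors_iff_ne_zero]
      exact_mod_cast Nat.card_pos.ne'
    · show (Nat.card (Points F a b) : ℤ) • P = 0
      rw [natCast_zsmul]
      exact card_nsmul_eq_zero'
  refine ⟨G, h1, fun s hs => ?_, ?_, h0⟩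
  · refine (congrArg (fun g => HasProd g (G s)) (funext fun v => ?_)).mp (h2 s hs)
    exact (factor_eq a b f s v).symm
  · rw [h0]
    exact analyticOrderAt_eq_zero.2 (Or.inr h3)

theorem sha2_of {F : Type} [Field F] [NumberField F] {W : WeierstrassCurve ℤ}
    (h : ∀ s : Pool.Agent.TH841.NF.D.Sha (W.map (Int.castRingHom F)), 2 • s = 0 → s = 0) :
    Sha2 F W = {0} := by
  have key : ∀ (j : ℕ) (x : Pool.Agent.TH841.NF.D.Sha (W.map (Int.castRingHom F))),
      2 ^ j • x = 0 → x = 0 := by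
    intro j
    induction j with
    | zero => intro x hx; rw [pow_zero, one_nsmul] at hx; exact hx
    | succ j ih =>
      intro x hx
      rw [pow_succ, mul_nsmul] at hx
      exact ih x (h _ hx)
  ext x
  constructor
  · rintro ⟨k, hk⟩
    exact key k x hk
  · rintro rfl
    exact ⟨0, nsmul_zero _⟩

/-- **Theorem.** (1) Let `W_1, …, W_m` be elliptic curves over `ℚ` with trivial 2-Selmer group and
`L(W_i, 1) ≠ 0`, and with newforms `f_i`. Let `H` be an infinite group of Dirichlet characters of order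
dividing `2 ^ n` and of squarefree conductors composed of primes `q` of good reduction modulo which all
the `W_i` have an odd number of points. Then `H` has an infinite subgroup `H'` such that, for all `i`,
the rank conjecture holds with rank `0` and `Ш(W_i/F)[2^∞] = 0` over all number fields `F ⊂ ℂ` contained
in the field generated by the Gaussian periods of all the characters in `H'`.

(2) The curve `X_0(11)` satisfies the hypotheses of (1). -/
theorem result :
    (∀ (m : ℕ) (W : Fin m → WeierstrassCurve ℤ) (N : Fin m → ℕ)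
      (f : (i : Fin m) → CuspForm (Gamma0 (N i) : Subgroup (GL (Fin 2) ℝ)) 2),
      (∀ i, (W i).Δ ≠ 0) → (∀ i, TrivialTwoSelmer (W i)) → (∀ i, N i ≠ 0) →
      (∀ i, IsFormOf (ca (W i)) (cb (W i)) (N i) (f i)) →
      (∀ i, AnalyticRankZero (ca (W i)) (cb (W i))) →
      ∀ (n : ℕ) (H : Subgroup Fam), IsCharGroup (fun i => ca (W i)) (fun i => cb (W i)) n H →
        (H : Set Fam).Infinite →
        ∃ H' : Subgroup Fam, H' ≤ H ∧ (H' : Set Fam).Infinite ∧
          ∀ (F : IntermediateField ℚ ℂ) [NumberField F],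
            F ≤ IntermediateField.adjoin ℚ {x : ℂ | ∃ c ∈ H', x = period c} →
            ∀ i, BSDRankZeroOver F (ca (W i)) (cb (W i)) (f i) ∧ Sha2 F (W i) = {0}) ∧
    (X11.Δ ≠ 0 ∧ TrivialTwoSelmer X11 ∧ (∃ f : CuspForm (Gamma0 11 : Subgroup (GL (Fin 2) ℝ)) 2,
      IsFormOf (ca X11) (cb X11) 11 f) ∧ AnalyticRankZero (ca X11) (cb X11)) := by
  refine ⟨?_, ?_, ?_, ?_, ?_⟩
  · intro m W N f hΔ hS hN hf h0 n H hH hinf
    have : ∀ i, NeZero (N i) := fun i => ⟨hN i⟩
    have hne : ∀ i, 4 * ca (W i) ^ 3 + 27 * cb (W i) ^ 2 ≠ 0 := by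
      intro i
      have h1 : 4 * ca (W i) ^ 3 + 27 * cb (W i) ^ 2 = -136048896 * (W i).Δ :=
        Pool.Agent.R901.EC.ca_cb (W i)
      rw [h1]
      exact mul_ne_zero (by norm_num) (hΔ i)
    have hOk : Pool.Agent.Y18.LP.HOk m (fun i => ca (W i)) (fun i => cb (W i)) 2 n H :=
      ⟨hH.pow, hH.finite, hH.admissible⟩
    obtain ⟨H1, h1, h2, R, -, -, h3⟩ := Pool.Agent.R425.T.split_curves (W := W) hΔ n H hOk
    have hinf1 : (H1 : Set Fam).Infinite := Pool.Agent.R901.EC.infinite_of_reps hinf R h3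
    have hOk1 : Pool.Agent.Y18.LP.HOk m (fun i => ca (W i)) (fun i => cb (W i)) 2 n H1 :=
      ⟨fun c hc => hH.pow c (h1 hc), fun c hc => hH.finite c (h1 hc),
        fun c hc => hH.admissible c (h1 hc)⟩
    obtain ⟨H', h4, h5, h6⟩ := Pool.Agent.Y18.LP.tower m (fun i => ca (W i)) (fun i => cb (W i)) hne N f
      (fun i => ⟨(hf i).one, (hf i).real, (hf i).mul, (hf i).pow, (hf i).good, (hf i).bad,
        (hf i).fricke, (hf i).points⟩) h0 2 n Nat.prime_two H1 hOk1 hinf1
    have hOk' : Pool.Agent.Y18.LP.HOk m (fun i => ca (W i)) (fun i => cb (W i)) 2 n H' :=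
      ⟨fun c hc => hOk1.pow c (h4 hc), fun c hc => hOk1.fin c (h4 hc),
        fun c hc => hOk1.adm c (h4 hc)⟩
    refine ⟨H', h4.trans h1, h5, fun F _ hF i => ?_⟩
    obtain ⟨hsha, hpt⟩ := Pool.Agent.R425.T.sel_curves (W := W) hΔ
      (fun i => ⟨(hS i).1, (hS i).2.1, (hS i).2.2⟩) n H' hOk' (fun c hc => h2 c (h4 hc)) F hF i
    refine ⟨bsd_of (h6 F hF i) ?_, sha2_of hsha⟩
    have hfin := Pool.Agent.R425.T.twk_fin (W i) (hΔ i) F hpt
    have e : Pool.Agent.R901.EC.twk (W i) F 1 =
        ({ a₁ := 0, a₂ := 0, a₃ := 0, a₄ := ((ca (W i) : ℤ) : F), a₆ := ((cb (W i) : ℤ) : F) } :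
          WeierstrassCurve F) := by
      unfold Pool.Agent.R901.EC.twk
      rw [one_pow, one_pow, mul_one, mul_one]
      rfl
    rw [e] at hfin
    exact hfin
  · norm_num [X11, WeierstrassCurve.Δ, WeierstrassCurve.b₂, WeierstrassCurve.b₄,
      WeierstrassCurve.b₆, WeierstrassCurve.b₈]
  · obtain ⟨h1, h2, h3⟩ := Pool.Agent.R901.EC.sel11
    exact ⟨h2, h3, h1⟩
  · have e1 : ca X11 = -13392 := by
      norm_num [ca, X11, WeierstrassCurve.c₄, WeierstrassCurve.b₂, WeierstrassCurve.b₄]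
    have e2 : cb X11 = -1080432 := by
      norm_num [cb, X11, WeierstrassCurve.c₆, WeierstrassCurve.b₂, WeierstrassCurve.b₄,
        WeierstrassCurve.b₆]
    rw [e1, e2]
    have h := Pool.Agent.Y18.BSD.Eleven.isFormOf
    exact ⟨_, ⟨h.one, h.real, h.mul, h.pow, h.good, h.bad, h.fricke, h.points⟩⟩
  · have e1 : ca X11 = -13392 := by
      norm_num [ca, X11, WeierstrassCurve.c₄, WeierstrassCurve.b₂, WeierstrassCurve.b₄]
    have e2 : cb X11 = -1080432 := by
      norm_num [cb, X11, WeierstrassCurve.c₆, WeierstrassCurve.b₂, WeierstrassCurve.b₄,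
        WeierstrassCurve.b₆]
    rw [e1, e2]
    exact Pool.Agent.Y18.NF.rankZero11

end Pool.Agent.Results.MP_1a91b9_nt.InfiniteTowersWithSha
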